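import Mathlib

/-!
# Partitions with exactly two part sizes: counting modulo 4
-/

namespace Pool.Agent.X13.TP

open Finset

/-- the number of partitions of `n` with exactly `k` distinct part sizes -/
def nu (k n : ℕ) : ℕ :=
  ((univ : Finset (Nat.Partition n)).filter fun p => p.parts.toFinset.card = k).card

/-- factorisations `(a, x)`, `a x = k` -/
abbrev A (k : ℕ) : Finset (ℕ × ℕ) := Nat.divisorsAntidiagonal k

/-- quadruples with `a x + b y = n` -/
def Q (n : ℕ) : Finset (Σ _ : ℕ × ℕ, (ℕ × ℕ) × (ℕ × ℕ)) :=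
  (antidiagonal n).sigma fun p => A p.1 ×ˢ A p.2

theorem mem_Q {n k l a x b y : ℕ} : (⟨(k, l), ((a, x), (b, y))⟩ : Σ _ : ℕ × ℕ, (ℕ × ℕ) × (ℕ × ℕ)) ∈ Q n
    ↔ k + l = n ∧ (a * x = k ∧ k ≠ 0) ∧ (b * y = l ∧ l ≠ 0) := by
  unfold Q A
  rw [mem_sigma, HasAntidiagonal.mem_antidiagonal, mem_product, Nat.mem_divisorsAntidiagonal,
    Nat.mem_divisorsAntidiagonal]

theorem pos_of {a x k : ℕ} (h : a * x = k ∧ k ≠ 0) : 0 < a ∧ 0 < x := by
  obtain ⟨h1, h2⟩ := h
  constructor
  · rcases Nat.eq_zero_or_pos a with rfl | h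
    · rw [zero_mul] at h1; omega
    · exact h
  · rcases Nat.eq_zero_or_pos x with rfl | h
    · rw [mul_zero] at h1; omega
    · exact h

/-- the partition with two part sizes -/
def mk2 (n a x b y : ℕ) (ha : 0 < a) (hb : 0 < b) (h : a * x + b * y = n) : Nat.Partition n where
  parts := Multiset.replicate x a + Multiset.replicate y b
  parts_pos := by
    intro i hi
    rw [Multiset.mem_add, Multiset.mem_replicate, Multiset.mem_replicate] at hi
    rcases hi with ⟨-, rfl⟩ | ⟨-, rfl⟩ <;> assumption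
  parts_sum := by
    rw [Multiset.sum_add, Multiset.sum_replicate, Multiset.sum_replicate, smul_eq_mul, smul_eq_mul,
      mul_comm x a, mul_comm y b, h]

theorem nu_two (n : ℕ) : nu 2 n = ((Q n).filter fun q => q.2.2.1 < q.2.1.1).card := by
  unfold nu
  symm
  refine card_bij (fun q hq => mk2 n q.2.1.1 q.2.1.2 q.2.2.1 q.2.2.2 ?_ ?_ ?_) ?_ ?_ ?_
  · obtain ⟨⟨k, l⟩, ⟨⟨a, x⟩, ⟨b, y⟩⟩⟩ := q
    rw [mem_filter, mem_Q] at hq
    exact (pos_of hq.1.2.1).1
  · obtain ⟨⟨k, l⟩, ⟨⟨a, x⟩, ⟨b, y⟩⟩⟩ := q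
    rw [mem_filter, mem_Q] at hq
    exact (pos_of hq.1.2.2).1
  · obtain ⟨⟨k, l⟩, ⟨⟨a, x⟩, ⟨b, y⟩⟩⟩ := q
    rw [mem_filter, mem_Q] at hq
    obtain ⟨⟨h1, ⟨h2, -⟩, ⟨h3, -⟩⟩, -⟩ := hq
    show a * x + b * y = n
    rw [h2, h3, h1]
  · rintro ⟨⟨k, l⟩, ⟨⟨a, x⟩, ⟨b, y⟩⟩⟩ hq
    rw [mem_filter, mem_Q] at hq
    obtain ⟨⟨h1, h2, h3⟩, h4⟩ := hq
    obtain ⟨ha, hx⟩ := pos_of h2
    obtain ⟨hb, hy⟩ := pos_of h3
    simp only at h4
    rw [mem_filter]
    refine ⟨mem_univ _, ?_⟩
    show (Multiset.replicate x a + Multiset.replicate y b).toFinset.card = 2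
    rw [Multiset.toFinset_add, Multiset.toFinset_replicate, Multiset.toFinset_replicate,
      if_neg (by omega), if_neg (by omega)]
    have : ({a} ∪ {b} : Finset ℕ) = {a, b} := rfl
    rw [this, card_pair (by omega)]
  · rintro ⟨⟨k, l⟩, ⟨⟨a, x⟩, ⟨b, y⟩⟩⟩ hq ⟨⟨k', l'⟩, ⟨⟨a', x'⟩, ⟨b', y'⟩⟩⟩ hq' he
    rw [mem_filter, mem_Q] at hq hq'
    obtain ⟨⟨h1, h2, h3⟩, h4⟩ := hq
    obtain ⟨⟨h1', h2', h3'⟩, h4'⟩ := hq'
    simp only at h4 h4'
    obtain ⟨ha, hx⟩ := pos_of h2
    obtain ⟨hb, hy⟩ := pos_of h3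
    obtain ⟨ha', hx'⟩ := pos_of h2'
    obtain ⟨hb', hy'⟩ := pos_of h3'
    have he2 : Multiset.replicate x a + Multiset.replicate y b
        = Multiset.replicate x' a' + Multiset.replicate y' b' := congrArg Nat.Partition.parts he
    have hc : ∀ c, (if a = c then x else 0) + (if b = c then y else 0)
        = (if a' = c then x' else 0) + (if b' = c then y' else 0) := by
      intro c
      have := congrArg (Multiset.count c) he2
      rw [Multiset.count_add, Multiset.count_add, Multiset.count_replicate,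
        Multiset.count_replicate, Multiset.count_replicate, Multiset.count_replicate] at this
      exact this
    have ca := hc a
    have cb := hc b
    have ca' := hc a'
    have cb' := hc b'
    rw [if_pos rfl, if_neg (by omega)] at ca
    rw [if_neg (by omega), if_pos rfl] at cb
    rw [if_pos (rfl : a' = a'), if_neg (by omega : ¬ b' = a')] at ca'
    rw [if_neg (by omega : ¬ a' = b'), if_pos (rfl : b' = b')] at cb'
    have e1 : a = a' := by
      split_ifs at ca cb ca' cb' <;> omega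
    have e2 : b = b' := by
      split_ifs at ca cb ca' cb' <;> omega
    subst e1 e2
    rw [if_pos rfl, if_neg (by omega)] at ca
    rw [if_neg (by omega), if_pos rfl] at cb
    have e3 : x = x' := by omega
    have e4 : y = y' := by omega
    subst e3 e4
    have e5 : k = k' := by rw [← h2.1, ← h2'.1]
    have e6 : l = l' := by rw [← h3.1, ← h3'.1]
    subst e5 e6
    rfl
  · intro p hp
    rw [mem_filter] at hp
    obtain ⟨a, b, hab, hS⟩ := card_eq_two.mp hp.2
    -- wlog `b < a`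
    have key : ∀ a b : ℕ, b < a → p.parts.toFinset = {a, b} →
        ∃ q, ∃ hq : q ∈ (Q n).filter fun q => q.2.2.1 < q.2.1.1,
          mk2 n q.2.1.1 q.2.1.2 q.2.2.1 q.2.2.2 (by
            obtain ⟨⟨k, l⟩, ⟨⟨a, x⟩, ⟨b, y⟩⟩⟩ := q
            rw [mem_filter, mem_Q] at hq
            exact (pos_of hq.1.2.1).1) (by
            obtain ⟨⟨k, l⟩, ⟨⟨a, x⟩, ⟨b, y⟩⟩⟩ := q
            rw [mem_filter, mem_Q] at hq
            exact (pos_of hq.1.2.2).1) (by
            obtain ⟨⟨k, l⟩, ⟨⟨a, x⟩, ⟨b, y⟩⟩⟩ := q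
            rw [mem_filter, mem_Q] at hq
            obtain ⟨⟨h1, ⟨h2, -⟩, ⟨h3, -⟩⟩, -⟩ := hq
            show a * x + b * y = n
            rw [h2, h3, h1]) = p := by
      intro a b hab hS
      set x := p.parts.count a with hx
      set y := p.parts.count b with hy
      have ham : a ∈ p.parts := by
        have : a ∈ p.parts.toFinset := by rw [hS]; simp
        exact Multiset.mem_toFinset.mp this
      have hbm : b ∈ p.parts := by
        have : b ∈ p.parts.toFinset := by rw [hS]; simp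
        exact Multiset.mem_toFinset.mp this
      have ha : 0 < a := p.parts_pos ham
      have hb : 0 < b := p.parts_pos hbm
      have hx0 : 0 < x := Multiset.count_pos.mpr ham
      have hy0 : 0 < y := Multiset.count_pos.mpr hbm
      have hparts : p.parts = Multiset.replicate x a + Multiset.replicate y b := by
        ext c
        rw [Multiset.count_add, Multiset.count_replicate, Multiset.count_replicate]
        by_cases h1 : a = c
        · subst h1
          rw [if_pos rfl, if_neg (by omega), add_zero]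
        · by_cases h2 : b = c
          · subst h2
            rw [if_neg h1, if_pos rfl, zero_add]
          · rw [if_neg h1, if_neg h2, Multiset.count_eq_zero.mpr]
            intro hc
            have : c ∈ p.parts.toFinset := Multiset.mem_toFinset.mpr hc
            rw [hS, mem_insert, mem_singleton] at this
            rcases this with h | h
            · exact h1 h.symm
            · exact h2 h.symm
      have hsum : a * x + b * y = n := by
        have h1 := p.parts_sum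
        rw [hparts, Multiset.sum_add, Multiset.sum_replicate, Multiset.sum_replicate, smul_eq_mul,
          smul_eq_mul] at h1
        rw [mul_comm a x, mul_comm b y]; exact h1
      have hne1 : a * x ≠ 0 := (Nat.mul_pos ha hx0).ne'
      have hne2 : b * y ≠ 0 := (Nat.mul_pos hb hy0).ne'
      refine ⟨⟨(a * x, b * y), ((a, x), (b, y))⟩, ?_, ?_⟩
      · rw [mem_filter, mem_Q]
        exact ⟨⟨hsum, ⟨rfl, hne1⟩, ⟨rfl, hne2⟩⟩, hab⟩
      · apply Nat.Partition.ext
        exact hparts.symm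
    rcases lt_or_gt_of_ne hab with h | h
    · exact key b a h (by rw [hS, pair_comm])
    · exact key a b h hS

/-- symmetric functions -/
def dd (k : ℕ) : ℕ := (A k).card

/-- factorisations with `a < x` -/
def hh (k : ℕ) : ℕ := ((A k).filter fun p => p.1 < p.2).card

/-- factorisations with `a = x` -/
def sq (k : ℕ) : ℕ := ((A k).filter fun p => p.1 = p.2).card

theorem dd_eq (k : ℕ) : dd k = 2 * hh k + sq k := by
  have h1 : ((A k).filter fun p => p.2 < p.1).card = hh k := by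
    unfold hh
    refine card_bij' (fun p _ => (p.2, p.1)) (fun p _ => (p.2, p.1)) ?_ ?_ ?_ ?_
    · rintro ⟨a, x⟩ hp
      rw [mem_filter, Nat.mem_divisorsAntidiagonal] at hp ⊢
      exact ⟨⟨by rw [mul_comm]; exact hp.1.1, hp.1.2⟩, hp.2⟩
    · rintro ⟨a, x⟩ hp
      rw [mem_filter, Nat.mem_divisorsAntidiagonal] at hp ⊢
      exact ⟨⟨by rw [mul_comm]; exact hp.1.1, hp.1.2⟩, hp.2⟩
    · rintro ⟨a, x⟩ _; rfl
    · rintro ⟨a, x⟩ _; rfl
  have h2 : dd k = hh k + ((A k).filter fun p => ¬ p.1 < p.2).card := by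
    unfold dd hh
    rw [card_filter_add_card_filter_not]
  have h3 : ((A k).filter fun p => ¬ p.1 < p.2).card
      = ((A k).filter fun p => p.2 < p.1).card + sq k := by
    unfold sq
    rw [← card_union_of_disjoint]
    · congr 1
      ext p
      simp only [mem_filter, mem_union]
      constructor
      · rintro ⟨h, h'⟩
        rcases lt_or_eq_of_le (not_lt.mp h') with h4 | h4
        · exact Or.inl ⟨h, h4⟩
        · exact Or.inr ⟨h, h4.symm⟩
      · rintro (⟨h, h'⟩ | ⟨h, h'⟩)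
        · exact ⟨h, by omega⟩
        · exact ⟨h, by omega⟩
    · rw [disjoint_filter]
      intro p _ h4 h5
      omega
  rw [h2, h3, h1]; ring

/-- `N(n)` -/
def NN (n : ℕ) : ℕ := ∑ p ∈ antidiagonal n, dd p.1 * dd p.2

theorem card_Q (n : ℕ) : (Q n).card = NN n := by
  unfold Q NN
  rw [card_sigma]
  exact sum_congr rfl fun p _ => card_product _ _

theorem dd_card (k : ℕ) : dd k = k.divisors.card := by
  unfold dd A
  rw [← Nat.map_div_right_divisors, card_map]

theorem nu_eq (n : ℕ) (hn : 0 < n) :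
    2 * nu 2 n + ∑ a ∈ n.divisors, a = NN n + n.divisors.card := by
  have h1 : (Q n).card = ((Q n).filter fun q => q.2.2.1 < q.2.1.1).card
      + ((Q n).filter fun q => ¬ q.2.2.1 < q.2.1.1).card := by
    rw [card_filter_add_card_filter_not]
  have h2 : ((Q n).filter fun q => ¬ q.2.2.1 < q.2.1.1).card
      = ((Q n).filter fun q => q.2.1.1 < q.2.2.1).card
        + ((Q n).filter fun q => q.2.1.1 = q.2.2.1).card := by
    rw [← card_union_of_disjoint]
    · congr 1
      ext p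
      simp only [mem_filter, mem_union]
      constructor
      · rintro ⟨h, h'⟩
        rcases lt_or_eq_of_le (not_lt.mp h') with h4 | h4
        · exact Or.inl ⟨h, h4⟩
        · exact Or.inr ⟨h, h4⟩
      · rintro (⟨h, h'⟩ | ⟨h, h'⟩)
        · exact ⟨h, by omega⟩
        · exact ⟨h, by omega⟩
    · rw [disjoint_filter]
      intro p _ h4 h5
      omega
  have h3 : ((Q n).filter fun q => q.2.1.1 < q.2.2.1).card
      = ((Q n).filter fun q => q.2.2.1 < q.2.1.1).card := by
    refine card_bij' (fun q _ => ⟨(q.1.2, q.1.1), (q.2.2, q.2.1)⟩)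
      (fun q _ => ⟨(q.1.2, q.1.1), (q.2.2, q.2.1)⟩) ?_ ?_ ?_ ?_
    · rintro ⟨⟨k, l⟩, ⟨⟨a, x⟩, ⟨b, y⟩⟩⟩ hq
      rw [mem_filter, mem_Q] at hq ⊢
      exact ⟨⟨by rw [add_comm]; exact hq.1.1, hq.1.2.2, hq.1.2.1⟩, hq.2⟩
    · rintro ⟨⟨k, l⟩, ⟨⟨a, x⟩, ⟨b, y⟩⟩⟩ hq
      rw [mem_filter, mem_Q] at hq ⊢
      exact ⟨⟨by rw [add_comm]; exact hq.1.1, hq.1.2.2, hq.1.2.1⟩, hq.2⟩
    · rintro ⟨⟨k, l⟩, ⟨⟨a, x⟩, ⟨b, y⟩⟩⟩ _; rfl
    · rintro ⟨⟨k, l⟩, ⟨⟨a, x⟩, ⟨b, y⟩⟩⟩ _; rfl
  have h4 : ((Q n).filter fun q => q.2.1.1 = q.2.2.1).card = ∑ a ∈ n.divisors, (n / a - 1) := by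
    have : ∑ a ∈ n.divisors, (n / a - 1) = (n.divisors.sigma fun a => Ico 1 (n / a)).card := by
      rw [card_sigma]
      exact sum_congr rfl fun a _ => by rw [Nat.card_Ico]
    rw [this]
    refine card_bij' (fun q _ => ⟨q.2.1.1, q.2.1.2⟩)
      (fun s _ => ⟨(s.1 * s.2, s.1 * (n / s.1 - s.2)), ((s.1, s.2), (s.1, n / s.1 - s.2))⟩)
      ?_ ?_ ?_ ?_
    · rintro ⟨⟨k, l⟩, ⟨⟨a, x⟩, ⟨b, y⟩⟩⟩ hq
      rw [mem_filter, mem_Q] at hq
      obtain ⟨⟨h1, h2, h3⟩, h4⟩ := hq
      simp only at h4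
      subst h4
      obtain ⟨ha, hx⟩ := pos_of h2
      obtain ⟨-, hy⟩ := pos_of h3
      have hn' : n = a * (x + y) := by rw [mul_add, h2.1, h3.1, h1]
      rw [mem_sigma, Nat.mem_divisors, mem_Ico]
      refine ⟨⟨⟨x + y, hn'⟩, hn.ne'⟩, hx, ?_⟩
      show x < n / a
      rw [hn', Nat.mul_div_cancel_left _ ha]
      omega
    · rintro ⟨a, x⟩ hs
      rw [mem_sigma, Nat.mem_divisors, mem_Ico] at hs
      obtain ⟨⟨⟨c, hc⟩, -⟩, hx, hx2⟩ := hs
      simp only at hx hx2 ⊢
      have ha : 0 < a := by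
        rcases Nat.eq_zero_or_pos a with rfl | h
        · rw [zero_mul] at hc; omega
        · exact h
      rw [mem_filter, mem_Q]
      rw [hc, Nat.mul_div_cancel_left _ ha] at hx2 ⊢
      refine ⟨⟨?_, ⟨rfl, (Nat.mul_pos ha hx).ne'⟩, ⟨rfl, (Nat.mul_pos ha (by omega)).ne'⟩⟩, rfl⟩
      rw [← mul_add]; congr 1; omega
    · rintro ⟨⟨k, l⟩, ⟨⟨a, x⟩, ⟨b, y⟩⟩⟩ hq
      rw [mem_filter, mem_Q] at hq
      obtain ⟨⟨h1, h2, h3⟩, h4⟩ := hq
      simp only at h4
      subst h4
      obtain ⟨ha, hx⟩ := pos_of h2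
      have hn' : n = a * (x + y) := by rw [mul_add, h2.1, h3.1, h1]
      have e : n / a - x = y := by
        rw [hn', Nat.mul_div_cancel_left _ ha]; omega
      simp only [e, h2.1, h3.1]
    · rintro ⟨a, x⟩ _; rfl
  have h5 : ∑ a ∈ n.divisors, (n / a - 1) + n.divisors.card = ∑ a ∈ n.divisors, a := by
    have h6 : ∑ a ∈ n.divisors, a = ∑ a ∈ n.divisors, n / a := (Nat.sum_div_divisors n fun a => a).symm
    rw [h6, card_eq_sum_ones, ← sum_add_distrib]
    refine sum_congr rfl fun a ha => ?_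
    have := Nat.div_pos (Nat.divisor_le ha) (Nat.pos_of_mem_divisors ha)
    omega
  rw [card_Q] at h1
  rw [nu_two]
  omega

end Pool.Agent.X13.TP
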