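import Pool.Agent.X13.TP.Count

/-!
# The sign-reversing bijection on the solutions of `x² + y z = n`, `n ≡ 2 (mod 4)`
-/

namespace Pool.Agent.X13.TP

open Finset

/-- the sign -/
def chi (y z : ℤ) : ℤ :=
  if y % 2 = 1 then (if z % 2 = 1 then (if y % 4 = 1 then 1 else -1)
    else (if y % 4 = 3 then 1 else -1)) else (if z % 4 = 3 then 1 else -1)

theorem chi_pm (y z : ℤ) : chi y z = 1 ∨ chi y z = -1 := by
  unfold chi
  split_ifs <;> simp

theorem mod4 (x : ℤ) : x % 4 = 0 ∨ x % 4 = 1 ∨ x % 4 = 2 ∨ x % 4 = 3 := by omega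

theorem chi_R (x y z : ℤ) (h : (x ^ 2 + y * z) % 4 = 2) : chi y (z - 2 * x - y) = - chi y z := by
  unfold chi
  rcases mod4 x with hx | hx | hx | hx <;> rcases mod4 y with hy | hy | hy | hy <;>
    rcases mod4 z with hz | hz | hz | hz <;>
    simp [pow_two, Int.add_emod, Int.mul_emod, hx, hy, hz] at h <;>
    (split_ifs <;> first | rfl | (exfalso; omega))

theorem chi_L (x y z : ℤ) (h : (x ^ 2 + y * z) % 4 = 2) : chi (y + 2 * x - z) z = - chi y z := by
  unfold chi
  rcases mod4 x with hx | hx | hx | hx <;> rcases mod4 y with hy | hy | hy | hy <;>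
    rcases mod4 z with hz | hz | hz | hz <;>
    simp [pow_two, Int.add_emod, Int.mul_emod, hx, hy, hz] at h <;>
    (split_ifs <;> first | rfl | (exfalso; omega))

theorem chi_swap (x y z : ℤ) (h : (x ^ 2 + y * z) % 4 = 2) : chi z y = chi y z := by
  unfold chi
  rcases mod4 x with hx | hx | hx | hx <;> rcases mod4 y with hy | hy | hy | hy <;>
    rcases mod4 z with hz | hz | hz | hz <;>
    simp [pow_two, Int.add_emod, Int.mul_emod, hx, hy, hz] at h <;>
    (split_ifs <;> first | rfl | (exfalso; omega))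

theorem chi_p (p y z : ℤ) (hp : p % 4 = 3) (h : (y * p * z) % 4 = 2) :
    chi y (z * p) = - chi (y * p) z := by
  have h1 : (z * p) % 4 = (z % 4 * 3) % 4 := by rw [Int.mul_emod, hp]
  have h2 : (y * p) % 4 = (y % 4 * 3) % 4 := by rw [Int.mul_emod, hp]
  have h3 : (y * p * z) % 4 = ((y * p) % 4 * (z % 4)) % 4 := by rw [Int.mul_emod]
  rw [h3, h2] at h
  unfold chi
  rcases mod4 y with hy | hy | hy | hy <;>
    rcases mod4 z with hz | hz | hz | hz <;>
    rw [hy, hz] at h <;> rw [hz] at h1 <;> rw [hy] at h2 <;> norm_num at h <;>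
    norm_num at h1 h2 <;>
    (split_ifs <;> first | rfl | (exfalso; omega))

/-- the solutions -/
noncomputable def U (n : ℤ) : Finset (ℤ × ℤ × ℤ) :=
  (Icc (-n) n ×ˢ (Icc 1 n ×ˢ Icc 1 n)).filter fun v => v.1 ^ 2 + v.2.1 * v.2.2 = n

theorem mem_U {n x y z : ℤ} : (x, y, z) ∈ U n ↔ 0 < y ∧ 0 < z ∧ x ^ 2 + y * z = n := by
  unfold U
  simp only [mem_filter, mem_product, mem_Icc]
  constructor
  · rintro ⟨⟨-, h1, h2⟩, h3⟩
    exact ⟨by omega, by omega, h3⟩
  · rintro ⟨hy, hz, h⟩
    have h1 : 1 ≤ y * z := Int.mul_pos hy hz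
    have h2 : y ≤ y * z := le_mul_of_one_le_right hy.le hz
    have h3 : z ≤ y * z := le_mul_of_one_le_left hz.le hy
    have h4 : x ≤ x ^ 2 := by nlinarith
    have h5 : -x ≤ x ^ 2 := by nlinarith
    have h6 : 0 ≤ x ^ 2 := sq_nonneg x
    exact ⟨⟨⟨by linarith, by linarith⟩, ⟨by linarith, by linarith⟩, ⟨by linarith, by linarith⟩⟩, h⟩

/-- `n` is not a square -/
theorem sum_chi (n : ℤ) (hn : n % 4 = 2) : ∑ v ∈ U n, chi v.2.1 v.2.2 = 0 := by
  have hnsq : ∀ x y : ℤ, y + 2 * x - (n - x ^ 2) / y ≠ 0 ∨ True := fun _ _ => Or.inr trivial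
  have hsq : ∀ w : ℤ, w ^ 2 ≠ n := by
    intro w hw
    rcases mod4 w with h | h | h | h <;>
      simp [pow_two, Int.mul_emod, h, ← hw] at hn
  have h1 : ∑ v ∈ U n, chi v.2.1 v.2.2 = ∑ v ∈ U n, - chi v.2.1 v.2.2 := by
    refine sum_bij'
      (fun v _ => if v.2.1 + 2 * v.1 - v.2.2 < 0
        then (v.1 + v.2.1, v.2.1, v.2.2 - 2 * v.1 - v.2.1)
        else (v.1 - v.2.2, v.2.1 + 2 * v.1 - v.2.2, v.2.2))
      (fun v _ => if v.2.1 - 2 * v.1 - v.2.2 < 0
        then (v.1 - v.2.1, v.2.1, v.2.2 + 2 * v.1 - v.2.1)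
        else (v.1 + v.2.2, v.2.1 - 2 * v.1 - v.2.2, v.2.2)) ?_ ?_ ?_ ?_ ?_
    · rintro ⟨x, y, z⟩ hv
      rw [mem_U] at hv
      obtain ⟨hy, hz, h⟩ := hv
      simp only
      split_ifs with hc
      · rw [mem_U]
        exact ⟨hy, by omega, by rw [← h]; ring⟩
      · have hne : y + 2 * x - z ≠ 0 := by
          intro h0
          apply hsq (x + y)
          rw [← h]
          have : z = y + 2 * x := by omega
          rw [this]; ring
        rw [mem_U]
        exact ⟨by omega, hz, by rw [← h]; ring⟩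
    · rintro ⟨x, y, z⟩ hv
      rw [mem_U] at hv
      obtain ⟨hy, hz, h⟩ := hv
      simp only
      split_ifs with hc
      · rw [mem_U]
        exact ⟨hy, by omega, by rw [← h]; ring⟩
      · have hne : y - 2 * x - z ≠ 0 := by
          intro h0
          apply hsq (x - y)
          rw [← h]
          have : z = y - 2 * x := by omega
          rw [this]; ring
        rw [mem_U]
        exact ⟨by omega, hz, by rw [← h]; ring⟩
    · rintro ⟨x, y, z⟩ hv
      rw [mem_U] at hv
      obtain ⟨hy, hz, h⟩ := hv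
      simp only
      by_cases hc : y + 2 * x - z < 0
      · simp only [if_pos hc]
        rw [if_pos (by omega)]
        simp only [Prod.mk.injEq, true_and, and_true]
        constructor <;> ring
      · simp only [if_neg hc]
        rw [if_neg (by omega)]
        simp only [Prod.mk.injEq, true_and, and_true]
        constructor <;> ring
    · rintro ⟨x, y, z⟩ hv
      rw [mem_U] at hv
      obtain ⟨hy, hz, h⟩ := hv
      simp only
      by_cases hc : y - 2 * x - z < 0
      · simp only [if_pos hc]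
        rw [if_pos (by omega)]
        simp only [Prod.mk.injEq, true_and, and_true]
        constructor <;> ring
      · simp only [if_neg hc]
        rw [if_neg (by omega)]
        simp only [Prod.mk.injEq, true_and, and_true]
        constructor <;> ring
    · rintro ⟨x, y, z⟩ hv
      rw [mem_U] at hv
      obtain ⟨hy, hz, h⟩ := hv
      rw [← h] at hn
      simp only
      split_ifs with hc
      · simp only
        rw [chi_R x y z hn, neg_neg]
      · simp only
        rw [chi_L x y z hn, neg_neg]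
  rw [sum_neg_distrib] at h1
  omega

/-- the solutions with `x > 0`, `y < z` -/
noncomputable def P (n : ℤ) : Finset (ℤ × ℤ × ℤ) := (U n).filter fun v => 0 < v.1 ∧ v.2.1 < v.2.2

theorem four_sum (n : ℤ) (hn : n % 4 = 2) (h2 : ∀ u v : ℤ, u ^ 2 + v ^ 2 ≠ n) :
    4 * ∑ v ∈ P n, chi v.2.1 v.2.2
      + ∑ v ∈ (U n).filter (fun v => v.1 = 0), chi v.2.1 v.2.2 = 0 := by
  have h0 := sum_chi n hn
  have e1 : ∑ v ∈ U n, chi v.2.1 v.2.2
      = ∑ v ∈ (U n).filter (fun v => v.1 = 0), chi v.2.1 v.2.2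
        + ∑ v ∈ (U n).filter (fun v => ¬ v.1 = 0), chi v.2.1 v.2.2 :=
    (sum_filter_add_sum_filter_not _ _ _).symm
  have e2 : ∑ v ∈ (U n).filter (fun v => ¬ v.1 = 0), chi v.2.1 v.2.2
      = ∑ v ∈ (U n).filter (fun v => 0 < v.1), chi v.2.1 v.2.2
        + ∑ v ∈ (U n).filter (fun v => v.1 < 0), chi v.2.1 v.2.2 := by
    rw [← sum_union]
    · congr 1
      ext v
      simp only [mem_filter, mem_union]
      constructor
      · rintro ⟨h, h'⟩
        rcases lt_or_gt_of_ne h' with h4 | h4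
        · exact Or.inr ⟨h, h4⟩
        · exact Or.inl ⟨h, h4⟩
      · rintro (⟨h, h'⟩ | ⟨h, h'⟩)
        · exact ⟨h, by omega⟩
        · exact ⟨h, by omega⟩
    · rw [disjoint_filter]
      intro v _ h4 h5
      omega
  have e3 : ∑ v ∈ (U n).filter (fun v => v.1 < 0), chi v.2.1 v.2.2
      = ∑ v ∈ (U n).filter (fun v => 0 < v.1), chi v.2.1 v.2.2 := by
    refine sum_bij' (fun v _ => (-v.1, v.2.1, v.2.2)) (fun v _ => (-v.1, v.2.1, v.2.2))
      ?_ ?_ ?_ ?_ ?_
    · rintro ⟨x, y, z⟩ hv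
      rw [mem_filter, mem_U] at hv ⊢
      obtain ⟨⟨hy, hz, h⟩, hx⟩ := hv
      simp only at hx
      exact ⟨⟨hy, hz, by rw [← h]; ring⟩, by simp only; omega⟩
    · rintro ⟨x, y, z⟩ hv
      rw [mem_filter, mem_U] at hv ⊢
      obtain ⟨⟨hy, hz, h⟩, hx⟩ := hv
      simp only at hx
      exact ⟨⟨hy, hz, by rw [← h]; ring⟩, by simp only; omega⟩
    · rintro ⟨x, y, z⟩ _; simp
    · rintro ⟨x, y, z⟩ _; simp
    · rintro ⟨x, y, z⟩ _; rfl
  have e4 : ∑ v ∈ (U n).filter (fun v => 0 < v.1), chi v.2.1 v.2.2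
      = ∑ v ∈ P n, chi v.2.1 v.2.2
        + ∑ v ∈ (U n).filter (fun v => 0 < v.1 ∧ v.2.2 < v.2.1), chi v.2.1 v.2.2 := by
    unfold P
    rw [← sum_union]
    · congr 1
      ext ⟨x, y, z⟩
      simp only [mem_filter, mem_union, mem_U]
      constructor
      · rintro ⟨h, h'⟩
        rcases lt_trichotomy y z with h4 | h4 | h4
        · exact Or.inl ⟨h, h', h4⟩
        · exfalso
          apply h2 x y
          rw [← h.2.2, h4]; ring
        · exact Or.inr ⟨h, h', h4⟩
      · rintro (⟨h, h', -⟩ | ⟨h, h', -⟩)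
        · exact ⟨h, h'⟩
        · exact ⟨h, h'⟩
    · rw [disjoint_filter]
      intro v _ h4 h5
      omega
  have e5 : ∑ v ∈ (U n).filter (fun v => 0 < v.1 ∧ v.2.2 < v.2.1), chi v.2.1 v.2.2
      = ∑ v ∈ P n, chi v.2.1 v.2.2 := by
    unfold P
    refine sum_bij' (fun v _ => (v.1, v.2.2, v.2.1)) (fun v _ => (v.1, v.2.2, v.2.1))
      ?_ ?_ ?_ ?_ ?_
    · rintro ⟨x, y, z⟩ hv
      rw [mem_filter, mem_U] at hv ⊢
      obtain ⟨⟨hy, hz, h⟩, hx⟩ := hv
      exact ⟨⟨hz, hy, by rw [← h]; ring⟩, hx⟩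
    · rintro ⟨x, y, z⟩ hv
      rw [mem_filter, mem_U] at hv ⊢
      obtain ⟨⟨hy, hz, h⟩, hx⟩ := hv
      exact ⟨⟨hz, hy, by rw [← h]; ring⟩, hx⟩
    · rintro ⟨x, y, z⟩ _; rfl
    · rintro ⟨x, y, z⟩ _; rfl
    · rintro ⟨x, y, z⟩ hv
      rw [mem_filter, mem_U] at hv
      obtain ⟨⟨hy, hz, h⟩, hx⟩ := hv
      exact (chi_swap x y z (by rw [h]; exact hn)).symm
  rw [h0] at e1
  linarith

theorem sum_zero (p r : ℤ) (hp : Prime p) (hp0 : 0 < p) (hp4 : p % 4 = 3) (hr : r % 2 = 1)
    (hpr : ¬ p ∣ r) :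
    ∑ v ∈ (U (2 * p * r)).filter (fun v => v.1 = 0), chi v.2.1 v.2.2 = 0 := by
  have hp2 : ¬ p ∣ 2 := by
    intro h
    have := Int.le_of_dvd (by norm_num) h
    have : p = 2 ∨ p = 1 := by omega
    rcases this with h | h <;> rw [h] at hp4 <;> norm_num at hp4
  have hn2 : ¬ p * p ∣ 2 * p * r := by
    rintro ⟨c, hc⟩
    have h1 : 2 * r = p * c := by
      apply mul_left_cancel₀ hp0.ne'
      linear_combination hc
    rcases hp.dvd_or_dvd ⟨c, h1⟩ with h | h
    · exact hp2 h
    · exact hpr h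
  have hmod : (2 * p * r) % 4 = 2 := by
    have : p * r % 2 = 1 := by
      rw [Int.mul_emod, hr, show p % 2 = 1 by omega]; norm_num
    have e : 2 * p * r = 2 * (p * r) := by ring
    rw [e]; omega
  refine sum_involution (fun v _ => if p ∣ v.2.1 then (0, v.2.1 / p, v.2.2 * p)
    else (0, v.2.1 * p, v.2.2 / p)) ?_ ?_ ?_ ?_
  · rintro ⟨x, y, z⟩ hv
    rw [mem_filter, mem_U] at hv
    obtain ⟨⟨hy, hz, h⟩, hx⟩ := hv
    simp only at hx
    subst hx
    simp only
    have h' : y * z = 2 * p * r := by rw [← h]; ring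
    split_ifs with hc
    · obtain ⟨c, rfl⟩ := hc
      rw [Int.mul_ediv_cancel_left _ hp0.ne']
      simp only
      have := chi_p p c z hp4 (by
        have e : c * p * z = p * c * z := by ring
        rw [e, h', hmod])
      rw [this, mul_comm p c]; ring
    · have hdz : p ∣ z := by
        rcases hp.dvd_or_dvd (show p ∣ y * z from ⟨2 * r, by rw [h']; ring⟩) with h | h
        · exact absurd h hc
        · exact h
      obtain ⟨c, rfl⟩ := hdz
      rw [Int.mul_ediv_cancel_left _ hp0.ne']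
      simp only
      have := chi_p p y c hp4 (by
        have e : y * p * c = y * (p * c) := by ring
        rw [e, h', hmod])
      rw [mul_comm p c, this]; ring
  · rintro ⟨x, y, z⟩ hv _
    rw [mem_filter, mem_U] at hv
    obtain ⟨⟨hy, hz, h⟩, hx⟩ := hv
    simp only
    split_ifs with hc
    · obtain ⟨c, rfl⟩ := hc
      rw [Int.mul_ediv_cancel_left _ hp0.ne']
      intro he
      simp only [Prod.mk.injEq] at he
      have h1 := he.2.1
      have hc0 : 0 < c := by
        by_contra hcon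
        have : p * c ≤ 0 := mul_nonpos_of_nonneg_of_nonpos hp0.le (by omega)
        omega
      have hp3 : 3 ≤ p := by omega
      nlinarith
    · intro he
      simp only [Prod.mk.injEq] at he
      have h1 := he.2.1
      have hp3 : 3 ≤ p := by omega
      nlinarith
  · rintro ⟨x, y, z⟩ hv
    rw [mem_filter, mem_U] at hv
    obtain ⟨⟨hy, hz, h⟩, hx⟩ := hv
    simp only at hx
    subst hx
    simp only
    have h' : y * z = 2 * p * r := by rw [← h]; ring
    split_ifs with hc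
    · obtain ⟨c, rfl⟩ := hc
      rw [Int.mul_ediv_cancel_left _ hp0.ne', mem_filter, mem_U]
      have hc0 : 0 < c := by
        by_contra hcon
        have : p * c ≤ 0 := mul_nonpos_of_nonneg_of_nonpos hp0.le (by omega)
        omega
      exact ⟨⟨hc0, Int.mul_pos hz hp0, by rw [← h']; ring⟩, rfl⟩
    · have hdz : p ∣ z := by
        rcases hp.dvd_or_dvd (show p ∣ y * z from ⟨2 * r, by rw [h']; ring⟩) with h | h
        · exact absurd h hc
        · exact h
      obtain ⟨c, rfl⟩ := hdz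
      rw [Int.mul_ediv_cancel_left _ hp0.ne', mem_filter, mem_U]
      have hc0 : 0 < c := by
        by_contra hcon
        have : p * c ≤ 0 := mul_nonpos_of_nonneg_of_nonpos hp0.le (by omega)
        omega
      exact ⟨⟨Int.mul_pos hy hp0, hc0, by rw [← h']; ring⟩, rfl⟩
  · rintro ⟨x, y, z⟩ hv
    rw [mem_filter, mem_U] at hv
    obtain ⟨⟨hy, hz, h⟩, hx⟩ := hv
    simp only at hx
    subst hx
    have h' : y * z = 2 * p * r := by rw [← h]; ring
    by_cases hc : p ∣ y
    · simp only [if_pos hc]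
      obtain ⟨c, rfl⟩ := hc
      rw [Int.mul_ediv_cancel_left _ hp0.ne']
      have hcc : ¬ p ∣ c := by
        rintro ⟨e, rfl⟩
        exact hn2 ⟨e * z, by rw [← h']; ring⟩
      rw [if_neg hcc, Int.mul_ediv_cancel _ hp0.ne', mul_comm c p]
    · simp only [if_neg hc]
      have hdz : p ∣ z := by
        rcases hp.dvd_or_dvd (show p ∣ y * z from ⟨2 * r, by rw [h']; ring⟩) with h | h
        · exact absurd h hc
        · exact h
      obtain ⟨c, rfl⟩ := hdz
      rw [Int.mul_ediv_cancel_left _ hp0.ne', if_pos (dvd_mul_left p y),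
        Int.mul_ediv_cancel _ hp0.ne', mul_comm c p]

/-- the number of solutions with `x > 0`, `y < z` is even -/
theorem even_P (p r : ℤ) (hp : Prime p) (hp0 : 0 < p) (hp4 : p % 4 = 3) (hr : r % 2 = 1)
    (hpr : ¬ p ∣ r) (h2 : ∀ u v : ℤ, u ^ 2 + v ^ 2 ≠ 2 * p * r) : 2 ∣ (P (2 * p * r)).card := by
  have hmod : (2 * p * r) % 4 = 2 := by
    have : p * r % 2 = 1 := by
      rw [Int.mul_emod, hr, show p % 2 = 1 by omega]; norm_num
    have e : 2 * p * r = 2 * (p * r) := by ring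
    rw [e]; omega
  have h4 := four_sum _ hmod h2
  rw [sum_zero p r hp hp0 hp4 hr hpr, add_zero] at h4
  have h5 : ∑ v ∈ P (2 * p * r), chi v.2.1 v.2.2 = 0 := by omega
  have h6 : ((P (2 * p * r)).card : ℤ) = ∑ v ∈ P (2 * p * r), (chi v.2.1 v.2.2 + 1) := by
    rw [sum_add_distrib, h5, zero_add, card_eq_sum_ones]
    push_cast
    rfl
  have h7 : (2 : ℤ) ∣ ((P (2 * p * r)).card : ℤ) := by
    rw [h6]
    refine Finset.dvd_sum fun v _ => ?_
    rcases chi_pm v.2.1 v.2.2 with h | h <;> rw [h] <;> norm_num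
  exact_mod_cast h7

end Pool.Agent.X13.TP
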