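import Pool.Agent.X13.TP.Forms

/-!
# `4 ∣ ν₂(2 p r)` for primes `p ≡ 7 (mod 8)` and odd `r` not divisible by `p`
-/

namespace Pool.Agent.X13.TP

open Finset

/-- `2 p r` is not a sum of two squares -/
theorem not_two_squares (p r : ℤ) (hp : Prime p) (hp0 : 0 < p) (hp4 : p % 4 = 3)
    (hpr : ¬ p ∣ r) (u v : ℤ) : u ^ 2 + v ^ 2 ≠ 2 * p * r := by
  intro h
  have hp2 : ¬ p ∣ 2 := by
    intro h
    have := Int.le_of_dvd (by norm_num) h
    have : p = 2 ∨ p = 1 := by omega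
    rcases this with h | h <;> rw [h] at hp4 <;> norm_num at hp4
  obtain ⟨q, rfl⟩ := Int.eq_ofNat_of_zero_le hp0.le
  have hq : q.Prime := Nat.prime_iff_prime_int.mpr hp
  have := Fact.mk hq
  have hz : ((u : ZMod q)) ^ 2 = - ((v : ZMod q)) ^ 2 := by
    have h1 : (((u ^ 2 + v ^ 2 : ℤ)) : ZMod q) = 0 := by
      rw [h]
      push_cast
      rw [ZMod.natCast_self]; ring
    push_cast at h1
    exact eq_neg_of_add_eq_zero_left h1
  have hv : (v : ZMod q) = 0 := by
    by_contra hv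
    exact ZMod.mod_four_ne_three_of_sq_eq_neg_sq' hv hz (by omega)
  have hu : (u : ZMod q) = 0 := by
    rw [hv] at hz
    have : (u : ZMod q) ^ 2 = 0 := by rw [hz]; ring
    exact pow_eq_zero_iff (two_ne_zero) |>.mp this
  obtain ⟨a, ha⟩ := (ZMod.intCast_zmod_eq_zero_iff_dvd u q).mp hu
  obtain ⟨b, hb⟩ := (ZMod.intCast_zmod_eq_zero_iff_dvd v q).mp hv
  have h2 : 2 * r = (q : ℤ) * (a ^ 2 + b ^ 2) := by
    apply mul_left_cancel₀ hp0.ne'
    rw [ha, hb] at h
    linear_combination -h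
  rcases hp.dvd_or_dvd ⟨_, h2⟩ with h | h
  · exact hp2 h
  · exact hpr h

theorem sq_ne {k : ℕ} (h : sq k ≠ 0) : ∃ a, 0 < a ∧ a * a = k := by
  unfold sq at h
  obtain ⟨⟨a, x⟩, hp⟩ := card_pos.mp (Nat.pos_of_ne_zero h)
  rw [mem_filter, Nat.mem_divisorsAntidiagonal] at hp
  obtain ⟨h1, h2⟩ := hp
  simp only at h1 h2
  subst h2
  exact ⟨a, (pos_of h1).1, h1.1⟩

/-- the count of mixed terms -/
theorem card_P (n : ℕ) : ∑ q ∈ antidiagonal n, sq q.1 * hh q.2 = (P (n : ℤ)).card := by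
  have h1 : ∑ q ∈ antidiagonal n, sq q.1 * hh q.2
      = ((antidiagonal n).sigma fun q => ((A q.1).filter fun w => w.1 = w.2) ×ˢ
          ((A q.2).filter fun w => w.1 < w.2)).card := by
    rw [card_sigma]
    exact sum_congr rfl fun q _ => (card_product _ _).symm
  rw [h1]
  refine card_bij' (fun s _ => ((s.2.1.1 : ℤ), (s.2.2.1 : ℤ), (s.2.2.2 : ℤ)))
    (fun v _ => ⟨(v.1.toNat * v.1.toNat, v.2.1.toNat * v.2.2.toNat),
      ((v.1.toNat, v.1.toNat), (v.2.1.toNat, v.2.2.toNat))⟩) ?_ ?_ ?_ ?_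
  · rintro ⟨⟨k, l⟩, ⟨⟨a, x⟩, ⟨b, y⟩⟩⟩ hs
    simp only [mem_sigma, HasAntidiagonal.mem_antidiagonal, mem_product, mem_filter,
      Nat.mem_divisorsAntidiagonal] at hs
    obtain ⟨h2, ⟨h3, h4⟩, h5, h6⟩ := hs
    subst h4
    unfold P
    rw [mem_filter, mem_U]
    obtain ⟨ha, -⟩ := pos_of h3
    obtain ⟨hb, hy⟩ := pos_of h5
    refine ⟨⟨by simpa using hb, by simpa using hy, ?_⟩, by simpa using ha, ?_⟩
    · rw [← h2, ← h3.1, ← h5.1]; push_cast; ring
    · simp only; exact_mod_cast h6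
  · rintro ⟨x, y, z⟩ hv
    unfold P at hv
    rw [mem_filter, mem_U] at hv
    obtain ⟨⟨hy, hz, h⟩, hx, hyz⟩ := hv
    simp only at hx hyz
    obtain ⟨x', rfl⟩ := Int.eq_ofNat_of_zero_le hx.le
    obtain ⟨y', rfl⟩ := Int.eq_ofNat_of_zero_le hy.le
    obtain ⟨z', rfl⟩ := Int.eq_ofNat_of_zero_le hz.le
    simp only [Int.toNat_natCast, mem_sigma, HasAntidiagonal.mem_antidiagonal, mem_product,
      mem_filter, Nat.mem_divisorsAntidiagonal]
    have hx' : 0 < x' := by exact_mod_cast hx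
    have hy' : 0 < y' := by exact_mod_cast hy
    have hz' : 0 < z' := by exact_mod_cast hz
    refine ⟨?_, ⟨⟨trivial, (Nat.mul_pos hx' hx').ne'⟩, trivial⟩,
      ⟨trivial, (Nat.mul_pos hy' hz').ne'⟩, ?_⟩
    · have : x' ^ 2 + y' * z' = n := by exact_mod_cast h
      rw [← this]; ring
    · exact_mod_cast hyz
  · rintro ⟨⟨k, l⟩, ⟨⟨a, x⟩, ⟨b, y⟩⟩⟩ hs
    simp only [mem_sigma, HasAntidiagonal.mem_antidiagonal, mem_product, mem_filter,
      Nat.mem_divisorsAntidiagonal] at hs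
    obtain ⟨h2, ⟨h3, h4⟩, h5, h6⟩ := hs
    subst h4
    simp only [Int.toNat_natCast, h3.1, h5.1]
  · rintro ⟨x, y, z⟩ hv
    unfold P at hv
    rw [mem_filter, mem_U] at hv
    obtain ⟨⟨hy, hz, h⟩, hx, hyz⟩ := hv
    simp only at hx hyz
    simp only [Int.toNat_of_nonneg hx.le, Int.toNat_of_nonneg hy.le, Int.toNat_of_nonneg hz.le]

/-- symmetric sums modulo two -/
theorem sym_parity (f : ℕ → ℕ) (M : ℕ) :
    (∑ q ∈ antidiagonal (2 * M), f q.1 * f q.2) % 2 = (f M) % 2 := by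
  have h : ((∑ q ∈ antidiagonal (2 * M), f q.1 * f q.2 : ℕ) : ZMod 2) = ((f M : ℕ) : ZMod 2) := by
    push_cast
    have hM : (M, M) ∈ antidiagonal (2 * M) := by
      rw [HasAntidiagonal.mem_antidiagonal]; ring
    rw [← add_sum_erase _ _ hM]
    have h0 : ∑ q ∈ (antidiagonal (2 * M)).erase (M, M), (f q.1 : ZMod 2) * (f q.2 : ZMod 2) = 0 := by
      refine sum_involution (fun q _ => (q.2, q.1)) ?_ ?_ ?_ ?_
      · rintro ⟨a, b⟩ _
        show (f a : ZMod 2) * f b + f b * f a = 0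
        rw [mul_comm (f b : ZMod 2)]
        exact CharTwo.add_self_eq_zero _
      · rintro ⟨a, b⟩ hq _ he
        rw [mem_erase, HasAntidiagonal.mem_antidiagonal] at hq
        simp only [Prod.mk.injEq] at he
        apply hq.1
        have := hq.2
        simp only at this
        rw [Prod.mk.injEq]
        omega
      · rintro ⟨a, b⟩ hq
        rw [mem_erase, HasAntidiagonal.mem_antidiagonal] at hq ⊢
        refine ⟨?_, by have := hq.2; simp only at this ⊢; omega⟩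
        intro he
        apply hq.1
        rw [Prod.mk.injEq] at he ⊢
        exact ⟨he.2, he.1⟩
      · rintro ⟨a, b⟩ _; rfl
    rw [h0, add_zero]
    have : ∀ t : ZMod 2, t * t = t := by decide
    exact this _
  have := (ZMod.natCast_eq_natCast_iff _ _ _).mp h
  exact this

theorem four_dvd (p r : ℕ) (hp : p.Prime) (hp8 : p % 8 = 7) (hr : r % 2 = 1) (hpr : ¬ p ∣ r) :
    4 ∣ nu 2 (2 * p * r) := by
  have hpi : Prime (p : ℤ) := Nat.prime_iff_prime_int.mp hp
  have hpri : ¬ (p : ℤ) ∣ (r : ℤ) := by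
    intro h; exact hpr (by exact_mod_cast h)
  have h2 : ∀ u v : ℤ, u ^ 2 + v ^ 2 ≠ 2 * (p : ℤ) * r :=
    not_two_squares p r hpi (by exact_mod_cast hp.pos) (by omega) hpri
  have hP : 2 ∣ (P (2 * (p : ℤ) * r)).card :=
    even_P p r hpi (by exact_mod_cast hp.pos) (by omega) (by omega) hpri h2
  have hcard := card_P (2 * p * r)
  push_cast at hcard
  rw [← hcard] at hP
  have hr0 : 0 < r := by omega
  have hp0 : 0 < p := hp.pos
  have hn : 0 < 2 * p * r := by positivity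
  have hmain := nu_eq (2 * p * r) hn
  have hsq2 : ∀ q ∈ antidiagonal (2 * p * r), sq q.1 * sq q.2 = 0 := by
    rintro ⟨k, l⟩ hq
    rw [HasAntidiagonal.mem_antidiagonal] at hq
    by_contra hne
    obtain ⟨a, -, ha⟩ := sq_ne (left_ne_zero_of_mul hne)
    obtain ⟨b, -, hb⟩ := sq_ne (right_ne_zero_of_mul hne)
    apply h2 a b
    simp only at ha hb hq
    rw [← ha, ← hb] at hq
    have : ((a * a + b * b : ℕ) : ℤ) = ((2 * p * r : ℕ) : ℤ) := by rw [hq]
    push_cast at this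
    linarith
  have hsqM : sq (p * r) = 0 := by
    by_contra hne
    obtain ⟨a, -, ha⟩ := sq_ne hne
    have h1 : p ∣ a := by
      rcases (Nat.Prime.dvd_mul hp).mp (Dvd.intro r ha.symm) with h | h <;> exact h
    obtain ⟨c, rfl⟩ := h1
    apply hpr
    refine ⟨c * c, ?_⟩
    apply Nat.eq_of_mul_eq_mul_left hp0
    rw [← ha]; ring
  have hNN : NN (2 * p * r) = 4 * ∑ q ∈ antidiagonal (2 * p * r), hh q.1 * hh q.2
      + 4 * ∑ q ∈ antidiagonal (2 * p * r), sq q.1 * hh q.2 := by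
    have hs : ∑ q ∈ antidiagonal (2 * p * r), hh q.1 * sq q.2
        = ∑ q ∈ antidiagonal (2 * p * r), sq q.1 * hh q.2 := by
      refine sum_nbij' Prod.swap Prod.swap ?_ ?_ ?_ ?_ ?_
      · intro q hq
        rw [HasAntidiagonal.mem_antidiagonal] at hq ⊢
        rw [← hq]; exact add_comm _ _
      · intro q hq
        rw [HasAntidiagonal.mem_antidiagonal] at hq ⊢
        rw [← hq]; exact add_comm _ _
      · intro q _; rfl
      · intro q _; rfl
      · intro q _; exact mul_comm _ _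
    have : NN (2 * p * r) = 4 * ∑ q ∈ antidiagonal (2 * p * r), hh q.1 * hh q.2
      + 2 * ∑ q ∈ antidiagonal (2 * p * r), hh q.1 * sq q.2
      + 2 * ∑ q ∈ antidiagonal (2 * p * r), sq q.1 * hh q.2 := by
      unfold NN
      rw [mul_sum, mul_sum, mul_sum, ← sum_add_distrib, ← sum_add_distrib]
      refine sum_congr rfl fun q hq => ?_
      rw [dd_eq, dd_eq]
      have := hsq2 q hq
      nlinarith
    rw [this, hs]; ring
  have hH := sym_parity hh (p * r)
  have e : 2 * (p * r) = 2 * p * r := by ring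
  rw [e] at hH
  have hcop2 : Nat.Coprime 2 (p * r) := by
    rw [Nat.coprime_two_left, Nat.odd_mul]
    exact ⟨Nat.odd_iff.mpr (by omega), Nat.odd_iff.mpr hr⟩
  have hcopr : Nat.Coprime p r := (Nat.Prime.coprime_iff_not_dvd hp).mpr hpr
  have hd : (2 * p * r).divisors.card = 4 * hh (p * r) := by
    rw [← e, Nat.Coprime.card_divisors_mul hcop2, ← dd_card (p * r), dd_eq, hsqM]
    have : (Nat.divisors 2).card = 2 := by decide
    rw [this]; ring
  have hsig : 8 ∣ ∑ a ∈ (2 * p * r).divisors, a := by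
    rw [← e, Nat.Coprime.sum_divisors_mul hcop2, Nat.Coprime.sum_divisors_mul hcopr]
    have : ∑ a ∈ p.divisors, a = p + 1 := by
      rw [Nat.Prime.sum_divisors hp]
    rw [this]
    have h8 : 8 ∣ p + 1 := by omega
    exact Dvd.dvd.mul_left (Dvd.dvd.mul_right h8 _) _
  omega

end Pool.Agent.X13.TP
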