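import Pool.Agent.X13.TP.Three

/-!
# Parity classes of two-size partitions
-/

namespace Pool.Agent.X13.TP

open Finset

/-- quadruples `(λ₁, m₁, λ₂, m₂)` of positive integers with `λ₁ m₁ + λ₂ m₂ = n` -/
def R (n : ℕ) : Finset (ℕ × ℕ × ℕ × ℕ) :=
  (range (n + 1) ×ˢ range (n + 1) ×ˢ range (n + 1) ×ˢ range (n + 1)).filter
    fun v => 1 ≤ v.1 ∧ 1 ≤ v.2.1 ∧ 1 ≤ v.2.2.1 ∧ 1 ≤ v.2.2.2 ∧
      v.1 * v.2.1 + v.2.2.1 * v.2.2.2 = n

theorem mem_R {n a x b y : ℕ} : (a, x, b, y) ∈ R n ↔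
    1 ≤ a ∧ 1 ≤ x ∧ 1 ≤ b ∧ 1 ≤ y ∧ a * x + b * y = n := by
  unfold R
  simp only [mem_filter, mem_product, mem_range]
  constructor
  · rintro ⟨-, h⟩; exact h
  · rintro ⟨ha, hx, hb, hy, h⟩
    have h1 : a * 1 ≤ a * x := Nat.mul_le_mul_left _ hx
    have h2 : 1 * x ≤ a * x := Nat.mul_le_mul_right _ ha
    have h3 : b * 1 ≤ b * y := Nat.mul_le_mul_left _ hy
    have h4 : 1 * y ≤ b * y := Nat.mul_le_mul_right _ hb
    exact ⟨⟨by omega, by omega, by omega, by omega⟩, ha, hx, hb, hy, h⟩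

/-- parity pattern -/
def pat (e f g h : ℕ) (v : ℕ × ℕ × ℕ × ℕ) : Prop :=
  v.1 % 2 = e ∧ v.2.1 % 2 = f ∧ v.2.2.1 % 2 = g ∧ v.2.2.2 % 2 = h

instance (e f g h : ℕ) (v : ℕ × ℕ × ℕ × ℕ) : Decidable (pat e f g h v) := by
  unfold pat; infer_instance

def CC (n e f g h : ℕ) : ℕ := ((R n).filter fun v => pat e f g h v).card
def GG (n e f g h : ℕ) : ℕ := ((R n).filter fun v => v.2.2.1 < v.1 ∧ pat e f g h v).card
def DD (n e f g h : ℕ) : ℕ := ((R n).filter fun v => v.1 = v.2.2.1 ∧ pat e f g h v).card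

theorem CC_split (n e f g h : ℕ) : CC n e f g h = GG n e f g h + GG n g h e f + DD n e f g h := by
  have h1 : GG n g h e f = ((R n).filter fun v => v.1 < v.2.2.1 ∧ pat e f g h v).card := by
    unfold GG
    refine card_bij' (fun v _ => (v.2.2.1, v.2.2.2, v.1, v.2.1))
      (fun v _ => (v.2.2.1, v.2.2.2, v.1, v.2.1)) ?_ ?_ ?_ ?_
    · rintro ⟨a, x, b, y⟩ hv
      rw [mem_filter, mem_R] at hv ⊢
      obtain ⟨⟨h1, h2, h3, h4, h5⟩, h6, h7, h8, h9, h10⟩ := hv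
      exact ⟨⟨h3, h4, h1, h2, by rw [add_comm]; exact h5⟩, h6, h9, h10, h7, h8⟩
    · rintro ⟨a, x, b, y⟩ hv
      rw [mem_filter, mem_R] at hv ⊢
      obtain ⟨⟨h1, h2, h3, h4, h5⟩, h6, h7, h8, h9, h10⟩ := hv
      exact ⟨⟨h3, h4, h1, h2, by rw [add_comm]; exact h5⟩, h6, h9, h10, h7, h8⟩
    · rintro ⟨a, x, b, y⟩ _; rfl
    · rintro ⟨a, x, b, y⟩ _; rfl
  rw [h1]
  unfold CC GG DD
  rw [card_filter, card_filter, card_filter, card_filter, ← sum_add_distrib, ← sum_add_distrib]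
  refine sum_congr rfl ?_
  rintro ⟨a, x, b, y⟩ _
  simp only
  by_cases hp : pat e f g h (a, x, b, y)
  · simp only [hp, and_true, if_true]
    rcases lt_trichotomy a b with h | h | h
    · rw [if_neg (by omega), if_pos h, if_neg (by omega)]
    · rw [if_neg (by omega), if_neg (by omega), if_pos h]
    · rw [if_pos h, if_neg (by omega), if_neg (by omega)]
  · simp [hp]

theorem CC_flip (n e f g h : ℕ) : CC n e f g h = CC n e f h g := by
  unfold CC
  refine card_bij' (fun v _ => (v.1, v.2.1, v.2.2.2, v.2.2.1))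
      (fun v _ => (v.1, v.2.1, v.2.2.2, v.2.2.1)) ?_ ?_ ?_ ?_
  · rintro ⟨a, x, b, y⟩ hv
    rw [mem_filter, mem_R] at hv ⊢
    obtain ⟨⟨h1, h2, h3, h4, h5⟩, h7, h8, h9, h10⟩ := hv
    exact ⟨⟨h1, h2, h4, h3, by rw [mul_comm y b]; exact h5⟩, h7, h8, h10, h9⟩
  · rintro ⟨a, x, b, y⟩ hv
    rw [mem_filter, mem_R] at hv ⊢
    obtain ⟨⟨h1, h2, h3, h4, h5⟩, h7, h8, h9, h10⟩ := hv
    exact ⟨⟨h1, h2, h4, h3, by rw [mul_comm y b]; exact h5⟩, h7, h8, h10, h9⟩
  · rintro ⟨a, x, b, y⟩ _; rfl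
  · rintro ⟨a, x, b, y⟩ _; rfl

theorem CC_flip' (n e f g h : ℕ) : CC n e f g h = CC n f e g h := by
  unfold CC
  refine card_bij' (fun v _ => (v.2.1, v.1, v.2.2.1, v.2.2.2))
      (fun v _ => (v.2.1, v.1, v.2.2.1, v.2.2.2)) ?_ ?_ ?_ ?_
  · rintro ⟨a, x, b, y⟩ hv
    rw [mem_filter, mem_R] at hv ⊢
    obtain ⟨⟨h1, h2, h3, h4, h5⟩, h7, h8, h9, h10⟩ := hv
    exact ⟨⟨h2, h1, h3, h4, by rw [mul_comm x a]; exact h5⟩, h8, h7, h9, h10⟩
  · rintro ⟨a, x, b, y⟩ hv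
    rw [mem_filter, mem_R] at hv ⊢
    obtain ⟨⟨h1, h2, h3, h4, h5⟩, h7, h8, h9, h10⟩ := hv
    exact ⟨⟨h2, h1, h3, h4, by rw [mul_comm x a]; exact h5⟩, h8, h7, h9, h10⟩
  · rintro ⟨a, x, b, y⟩ _; rfl
  · rintro ⟨a, x, b, y⟩ _; rfl

/-- conjugation -/
theorem GG_conj (n e f g h e' h' : ℕ) (he : (f + h) % 2 = e') (hh' : (e + g) % 2 = h')
    (he1 : e < 2) (hf1 : f < 2) (hg1 : g < 2) (hh1 : h < 2) :
    GG n e f g h = GG n e' g f h' := by
  unfold GG
  refine card_bij' (fun v _ => (v.2.1 + v.2.2.2, v.2.2.1, v.2.1, v.1 - v.2.2.1))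
      (fun v _ => (v.2.1 + v.2.2.2, v.2.2.1, v.2.1, v.1 - v.2.2.1)) ?_ ?_ ?_ ?_
  · rintro ⟨a, x, b, y⟩ hv
    rw [mem_filter, mem_R] at hv ⊢
    obtain ⟨⟨h1, h2, h3, h4, h5⟩, h6, h7, h8, h9, h10⟩ := hv
    simp only at h6 h7 h8 h9 h10
    unfold pat
    simp only
    obtain ⟨c, rfl⟩ : ∃ c, a = b + c := ⟨a - b, by omega⟩
    have e1 : b + c - b = c := by omega
    rw [e1]
    refine ⟨⟨by omega, by omega, by omega, by omega, ?_⟩, by omega, by omega, by omega, by omega,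
      by omega⟩
    rw [← h5]; ring
  · rintro ⟨a, x, b, y⟩ hv
    rw [mem_filter, mem_R] at hv ⊢
    obtain ⟨⟨h1, h2, h3, h4, h5⟩, h6, h7, h8, h9, h10⟩ := hv
    simp only at h6 h7 h8 h9 h10
    unfold pat
    simp only
    obtain ⟨c, rfl⟩ : ∃ c, a = b + c := ⟨a - b, by omega⟩
    have e1 : b + c - b = c := by omega
    rw [e1]
    refine ⟨⟨by omega, by omega, by omega, by omega, ?_⟩, by omega, by omega, by omega, by omega,
      by omega⟩
    rw [← h5]; ring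
  · rintro ⟨a, x, b, y⟩ hv
    rw [mem_filter, mem_R] at hv
    obtain ⟨⟨h1, h2, h3, h4, h5⟩, h6, -⟩ := hv
    simp only at h6
    simp only [Prod.mk.injEq, true_and]
    omega
  · rintro ⟨a, x, b, y⟩ hv
    rw [mem_filter, mem_R] at hv
    obtain ⟨⟨h1, h2, h3, h4, h5⟩, h6, -⟩ := hv
    simp only at h6
    simp only [Prod.mk.injEq, true_and]
    omega

theorem parity_a {a x b y : ℕ} (h : (a * x + b * y) % 4 = 2) :
    ((a % 2 = 1 ∧ x % 2 = 1) ↔ (b % 2 = 1 ∧ y % 2 = 1)) ∧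
      ¬ (a % 2 = 0 ∧ x % 2 = 0 ∧ b % 2 = 0 ∧ y % 2 = 0) := by
  constructor
  · have h2 : Even (a * x + b * y) := by rw [Nat.even_iff]; omega
    rw [Nat.even_add, Nat.even_mul, Nat.even_mul, Nat.even_iff, Nat.even_iff, Nat.even_iff,
      Nat.even_iff] at h2
    omega
  · rintro ⟨h1, h2, h3, h4⟩
    obtain ⟨a', rfl⟩ : ∃ c, a = 2 * c := ⟨a / 2, by omega⟩
    obtain ⟨x', rfl⟩ : ∃ c, x = 2 * c := ⟨x / 2, by omega⟩
    obtain ⟨b', rfl⟩ : ∃ c, b = 2 * c := ⟨b / 2, by omega⟩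
    obtain ⟨y', rfl⟩ : ∃ c, y = 2 * c := ⟨y / 2, by omega⟩
    have e : 2 * a' * (2 * x') + 2 * b' * (2 * y') = 4 * (a' * x' + b' * y') := by ring
    rw [e] at h
    omega

theorem split_rk2 (n : ℕ) (hn : n % 4 = 2) :
    ((R n).filter fun v => v.2.2.1 < v.1 ∧ (v.1 + v.2.2.1 + v.2.2.2) % 2 = 0).card
      = GG n 1 0 0 1 + GG n 0 1 0 0 + GG n 1 0 1 0 := by
  unfold GG pat
  rw [card_filter, card_filter, card_filter, card_filter, ← sum_add_distrib, ← sum_add_distrib]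
  refine sum_congr rfl ?_
  rintro ⟨a, x, b, y⟩ hv
  rw [mem_R] at hv
  have hp := parity_a (show (a * x + b * y) % 4 = 2 by rw [hv.2.2.2.2]; exact hn)
  simp only
  by_cases hab : b < a
  · simp only [hab, true_and]
    rcases Nat.mod_two_eq_zero_or_one a with ha | ha <;>
    rcases Nat.mod_two_eq_zero_or_one x with hx | hx <;>
    rcases Nat.mod_two_eq_zero_or_one b with hb | hb <;>
    rcases Nat.mod_two_eq_zero_or_one y with hy | hy <;>
    simp [ha, hx, hb, hy] at hp ⊢ <;> omega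
  · simp [hab]

theorem split_rk (n : ℕ) (hn : n % 4 = 2) :
    ((R n).filter fun v => v.2.2.1 < v.1 ∧ (v.1 + v.2.1 + v.2.2.2) % 2 = 0).card
      = GG n 1 0 0 1 + GG n 0 1 0 1 + GG n 0 0 1 0 := by
  unfold GG pat
  rw [card_filter, card_filter, card_filter, card_filter, ← sum_add_distrib, ← sum_add_distrib]
  refine sum_congr rfl ?_
  rintro ⟨a, x, b, y⟩ hv
  rw [mem_R] at hv
  have hp := parity_a (show (a * x + b * y) % 4 = 2 by rw [hv.2.2.2.2]; exact hn)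
  simp only
  by_cases hab : b < a
  · simp only [hab, true_and]
    rcases Nat.mod_two_eq_zero_or_one a with ha | ha <;>
    rcases Nat.mod_two_eq_zero_or_one x with hx | hx <;>
    rcases Nat.mod_two_eq_zero_or_one b with hb | hb <;>
    rcases Nat.mod_two_eq_zero_or_one y with hy | hy <;>
    simp [ha, hx, hb, hy] at hp ⊢ <;> omega
  · simp [hab]

theorem DD_1001 (n : ℕ) : DD n 1 0 0 1 = 0 := by
  unfold DD
  rw [card_eq_zero, filter_eq_empty_iff]
  rintro ⟨a, x, b, y⟩ _ ⟨h1, h2, h3, h4, h5⟩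
  simp only at h1 h2 h4
  omega

theorem DD_0101 (n : ℕ) (hn : n % 4 = 2) : DD n 0 1 0 1 = 0 := by
  unfold DD
  rw [card_eq_zero, filter_eq_empty_iff]
  rintro ⟨a, x, b, y⟩ hv ⟨h1, h2, h3, h4, h5⟩
  rw [mem_R] at hv
  simp only at h1 h2 h3 h4 h5
  subst h1
  obtain ⟨a', rfl⟩ : ∃ c, a = 2 * c := ⟨a / 2, by omega⟩
  obtain ⟨s, hs⟩ : ∃ c, x + y = 2 * c := ⟨(x + y) / 2, by omega⟩
  have e : 2 * a' * x + 2 * a' * y = 4 * (a' * s) := by
    have : 2 * a' * x + 2 * a' * y = 2 * a' * (x + y) := by ring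
    rw [this, hs]; ring
  rw [e] at hv
  omega

/-- the diagonal of the all-odd class -/
theorem DD_1111 (M : ℕ) (hM : M % 2 = 1) : DD (2 * M) 1 1 1 1 = ∑ a ∈ M.divisors, a := by
  have h0 : ∑ a ∈ M.divisors, a = (M.divisors.sigma fun a => range (M / a)).card := by
    rw [card_sigma, ← Nat.sum_div_divisors M fun a => a]
    exact sum_congr rfl fun a _ => (card_range _).symm
  rw [h0]
  unfold DD
  refine card_bij' (fun v _ => ⟨v.1, v.2.1 / 2⟩)
    (fun s _ => (s.1, 2 * s.2 + 1, s.1, 2 * (M / s.1) - (2 * s.2 + 1))) ?_ ?_ ?_ ?_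
  · rintro ⟨a, x, b, y⟩ hv
    rw [mem_filter, mem_R] at hv
    obtain ⟨⟨h1, h2, h3, h4, h5⟩, h6, h7, h8, h9, h10⟩ := hv
    simp only at h6 h7 h8 h9 h10
    subst h6
    obtain ⟨s, hs⟩ : ∃ c, x + y = 2 * c := ⟨(x + y) / 2, by omega⟩
    have hM' : M = a * s := by
      have : 2 * M = 2 * (a * s) := by
        rw [← h5]
        have : a * x + a * y = a * (x + y) := by ring
        rw [this, hs]; ring
      omega
    rw [mem_sigma, Nat.mem_divisors, mem_range]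
    refine ⟨⟨⟨s, hM'⟩, by omega⟩, ?_⟩
    show x / 2 < M / a
    rw [hM', Nat.mul_div_cancel_left _ (by omega)]
    omega
  · rintro ⟨a, j⟩ hs
    rw [mem_sigma, Nat.mem_divisors, mem_range] at hs
    obtain ⟨⟨⟨c, hc⟩, -⟩, hj⟩ := hs
    simp only at hj ⊢
    have ha : 0 < a := by
      rcases Nat.eq_zero_or_pos a with rfl | h
      · rw [zero_mul] at hc; omega
      · exact h
    rw [hc, Nat.mul_div_cancel_left _ ha] at hj ⊢
    have ha2 : a % 2 = 1 := by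
      rw [hc, Nat.mul_mod] at hM
      rcases Nat.mod_two_eq_zero_or_one a with h | h
      · rw [h, zero_mul] at hM; norm_num at hM
      · exact h
    rw [mem_filter, mem_R]
    refine ⟨⟨ha, by omega, ha, by omega, ?_⟩, rfl, ha2, by show (2 * j + 1) % 2 = 1; omega, ha2,
      by show (2 * c - (2 * j + 1)) % 2 = 1; omega⟩
    rw [← mul_add, show 2 * j + 1 + (2 * c - (2 * j + 1)) = 2 * c by omega]; ring
  · rintro ⟨a, x, b, y⟩ hv
    rw [mem_filter, mem_R] at hv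
    obtain ⟨⟨h1, h2, h3, h4, h5⟩, h6, h7, h8, h9, h10⟩ := hv
    simp only at h6 h7 h8 h9 h10
    subst h6
    obtain ⟨s, hs⟩ : ∃ c, x + y = 2 * c := ⟨(x + y) / 2, by omega⟩
    have hM' : M = a * s := by
      have : 2 * M = 2 * (a * s) := by
        rw [← h5]
        have : a * x + a * y = a * (x + y) := by ring
        rw [this, hs]; ring
      omega
    simp only [Prod.mk.injEq, true_and]
    rw [hM', Nat.mul_div_cancel_left _ (by omega)]
    omega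
  · rintro ⟨a, j⟩ _
    simp only
    congr 1
    omega

/-- the diagonal of the class `(1, 0, 1, 0)` -/
theorem DD_1010 (M : ℕ) (hM : M % 2 = 1) :
    DD (2 * M) 1 0 1 0 + M.divisors.card = ∑ a ∈ M.divisors, a := by
  have h0 : ∑ a ∈ M.divisors, a = (M.divisors.sigma fun a => Ico 1 (M / a)).card + M.divisors.card := by
    rw [card_sigma, ← Nat.sum_div_divisors M fun a => a, card_eq_sum_ones (M.divisors),
      ← sum_add_distrib]
    refine sum_congr rfl fun a ha => ?_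
    rw [Nat.card_Ico]
    have := Nat.div_pos (Nat.divisor_le ha) (Nat.pos_of_mem_divisors ha)
    omega
  rw [h0]
  congr 1
  unfold DD
  refine card_bij' (fun v _ => ⟨v.1, v.2.1 / 2⟩)
    (fun s _ => (s.1, 2 * s.2, s.1, 2 * (M / s.1) - 2 * s.2)) ?_ ?_ ?_ ?_
  · rintro ⟨a, x, b, y⟩ hv
    rw [mem_filter, mem_R] at hv
    obtain ⟨⟨h1, h2, h3, h4, h5⟩, h6, h7, h8, h9, h10⟩ := hv
    simp only at h6 h7 h8 h9 h10
    subst h6
    obtain ⟨s, hs⟩ : ∃ c, x + y = 2 * c := ⟨(x + y) / 2, by omega⟩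
    have hM' : M = a * s := by
      have : 2 * M = 2 * (a * s) := by
        rw [← h5]
        have : a * x + a * y = a * (x + y) := by ring
        rw [this, hs]; ring
      omega
    rw [mem_sigma, Nat.mem_divisors, mem_Ico]
    refine ⟨⟨⟨s, hM'⟩, by omega⟩, ?_⟩
    show 1 ≤ x / 2 ∧ x / 2 < M / a
    rw [hM', Nat.mul_div_cancel_left _ (by omega)]
    omega
  · rintro ⟨a, j⟩ hs
    rw [mem_sigma, Nat.mem_divisors, mem_Ico] at hs
    obtain ⟨⟨⟨c, hc⟩, -⟩, hj⟩ := hs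
    simp only at hj ⊢
    have ha : 0 < a := by
      rcases Nat.eq_zero_or_pos a with rfl | h
      · rw [zero_mul] at hc; omega
      · exact h
    rw [hc, Nat.mul_div_cancel_left _ ha] at hj ⊢
    have ha2 : a % 2 = 1 := by
      rw [hc, Nat.mul_mod] at hM
      rcases Nat.mod_two_eq_zero_or_one a with h | h
      · rw [h, zero_mul] at hM; norm_num at hM
      · exact h
    rw [mem_filter, mem_R]
    refine ⟨⟨ha, by omega, ha, by omega, ?_⟩, rfl, ha2, by show (2 * j) % 2 = 0; omega, ha2,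
      by show (2 * c - 2 * j) % 2 = 0; omega⟩
    rw [← mul_add, show 2 * j + (2 * c - 2 * j) = 2 * c by omega]; ring
  · rintro ⟨a, x, b, y⟩ hv
    rw [mem_filter, mem_R] at hv
    obtain ⟨⟨h1, h2, h3, h4, h5⟩, h6, h7, h8, h9, h10⟩ := hv
    simp only at h6 h7 h8 h9 h10
    subst h6
    obtain ⟨s, hs⟩ : ∃ c, x + y = 2 * c := ⟨(x + y) / 2, by omega⟩
    have hM' : M = a * s := by
      have : 2 * M = 2 * (a * s) := by
        rw [← h5]
        have : a * x + a * y = a * (x + y) := by ring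
        rw [this, hs]; ring
      omega
    simp only [Prod.mk.injEq, true_and]
    rw [hM', Nat.mul_div_cancel_left _ (by omega)]
    omega
  · rintro ⟨a, j⟩ _
    simp only
    congr 1
    omega

/-- the two main identities -/
theorem rank_identities (M : ℕ) (hM : M % 2 = 1) :
    2 * ((R (2 * M)).filter fun v => v.2.2.1 < v.1 ∧ (v.1 + v.2.2.1 + v.2.2.2) % 2 = 0).card
        + CC (2 * M) 1 1 1 1 + ∑ a ∈ M.divisors, a
      = 8 * GG (2 * M) 0 1 0 1 + 2 * M.divisors.card ∧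
    ((R (2 * M)).filter fun v => v.2.2.1 < v.1 ∧ (v.1 + v.2.1 + v.2.2.2) % 2 = 0).card
        + M.divisors.card
      = ((R (2 * M)).filter fun v => v.2.2.1 < v.1 ∧ (v.1 + v.2.2.1 + v.2.2.2) % 2 = 0).card
        + ∑ a ∈ M.divisors, a := by
  have hn : (2 * M) % 4 = 2 := by omega
  have h1 := split_rk2 (2 * M) hn
  have h2 := split_rk (2 * M) hn
  have c1 := GG_conj (2 * M) 1 0 1 0 0 0 rfl rfl (by norm_num) (by norm_num) (by norm_num)
    (by norm_num)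
  have c2 := GG_conj (2 * M) 0 1 0 1 0 0 rfl rfl (by norm_num) (by norm_num) (by norm_num)
    (by norm_num)
  have c3 := GG_conj (2 * M) 1 1 1 1 0 0 rfl rfl (by norm_num) (by norm_num) (by norm_num)
    (by norm_num)
  have s1 := CC_split (2 * M) 1 0 0 1
  have s2 := CC_split (2 * M) 1 0 1 0
  have s3 := CC_split (2 * M) 0 1 0 1
  have s4 := CC_split (2 * M) 1 1 1 1
  have d1 := DD_1001 (2 * M)
  have d2 := DD_0101 (2 * M) hn
  have d3 := DD_1111 M hM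
  have d4 := DD_1010 M hM
  have f1 := CC_flip (2 * M) 1 0 0 1
  have f2 := CC_flip (2 * M) 1 0 1 0
  have f3 := CC_flip' (2 * M) 1 0 0 1
  omega

end Pool.Agent.X13.TP
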