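import Pool.Agent.X13.TP.Rank

/-!
# The all-odd class modulo 8
-/

namespace Pool.Agent.X13.TP

open Finset

def go (k : ℕ) : ℕ := if k % 2 = 1 then hh k else 0
def so (k : ℕ) : ℕ := if k % 2 = 1 then sq k else 0
def ddo (k : ℕ) : ℕ := ((A k).filter fun p => p.1 % 2 = 1 ∧ p.2 % 2 = 1).card

theorem ddo_eq (k : ℕ) : ddo k = 2 * go k + so k := by
  unfold ddo go so
  split_ifs with h
  · rw [← dd_eq]
    unfold dd
    congr 1
    rw [filter_eq_self]
    rintro ⟨a, x⟩ hp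
    rw [Nat.mem_divisorsAntidiagonal] at hp
    rw [← hp.1, Nat.odd_iff.symm, Nat.odd_mul, Nat.odd_iff, Nat.odd_iff] at h
    exact h
  · rw [mul_zero, card_eq_zero, filter_eq_empty_iff]
    rintro ⟨a, x⟩ hp ⟨h1, h2⟩
    rw [Nat.mem_divisorsAntidiagonal] at hp
    apply h
    rw [← hp.1, Nat.odd_iff.symm, Nat.odd_mul, Nat.odd_iff, Nat.odd_iff]
    exact ⟨h1, h2⟩

theorem CC_1111 (n : ℕ) : CC n 1 1 1 1 = ∑ q ∈ antidiagonal n, ddo q.1 * ddo q.2 := by
  have h1 : ∑ q ∈ antidiagonal n, ddo q.1 * ddo q.2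
      = ((antidiagonal n).sigma fun q => ((A q.1).filter fun p => p.1 % 2 = 1 ∧ p.2 % 2 = 1) ×ˢ
          ((A q.2).filter fun p => p.1 % 2 = 1 ∧ p.2 % 2 = 1)).card := by
    rw [card_sigma]
    exact sum_congr rfl fun q _ => (card_product _ _).symm
  rw [h1]
  unfold CC
  refine card_bij' (fun v _ => ⟨(v.1 * v.2.1, v.2.2.1 * v.2.2.2), ((v.1, v.2.1), (v.2.2.1, v.2.2.2))⟩)
    (fun s _ => (s.2.1.1, s.2.1.2, s.2.2.1, s.2.2.2)) ?_ ?_ ?_ ?_
  · rintro ⟨a, x, b, y⟩ hv
    rw [mem_filter, mem_R] at hv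
    obtain ⟨⟨h1, h2, h3, h4, h5⟩, h7, h8, h9, h10⟩ := hv
    simp only at h7 h8 h9 h10
    simp only [mem_sigma, HasAntidiagonal.mem_antidiagonal, mem_product, mem_filter,
      Nat.mem_divisorsAntidiagonal]
    exact ⟨h5, ⟨⟨trivial, (Nat.mul_pos h1 h2).ne'⟩, h7, h8⟩, ⟨trivial, (Nat.mul_pos h3 h4).ne'⟩, h9,
      h10⟩
  · rintro ⟨⟨k, l⟩, ⟨⟨a, x⟩, ⟨b, y⟩⟩⟩ hs
    simp only [mem_sigma, HasAntidiagonal.mem_antidiagonal, mem_product, mem_filter,
      Nat.mem_divisorsAntidiagonal] at hs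
    obtain ⟨h0, ⟨h1, h2, h3⟩, h4, h5, h6⟩ := hs
    obtain ⟨ha, hx⟩ := pos_of h1
    obtain ⟨hb, hy⟩ := pos_of h4
    rw [mem_filter, mem_R]
    exact ⟨⟨ha, hx, hb, hy, by rw [h1.1, h4.1, h0]⟩, h2, h3, h5, h6⟩
  · rintro ⟨a, x, b, y⟩ _; rfl
  · rintro ⟨⟨k, l⟩, ⟨⟨a, x⟩, ⟨b, y⟩⟩⟩ hs
    simp only [mem_sigma, HasAntidiagonal.mem_antidiagonal, mem_product, mem_filter,
      Nat.mem_divisorsAntidiagonal] at hs
    obtain ⟨h0, ⟨h1, h2, h3⟩, h4, h5, h6⟩ := hs
    simp only [h1.1, h4.1]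

theorem card_J (n : ℕ) (hn : n % 4 = 2) :
    ∑ q ∈ antidiagonal n, so q.1 * go q.2 = (J (n : ℤ)).card := by
  have h1 : ∑ q ∈ antidiagonal n, so q.1 * go q.2
      = (((antidiagonal n).filter fun q => q.1 % 2 = 1 ∧ q.2 % 2 = 1).sigma
          fun q => ((A q.1).filter fun w => w.1 = w.2) ×ˢ
          ((A q.2).filter fun w => w.1 < w.2)).card := by
    rw [card_sigma, sum_filter]
    refine sum_congr rfl fun q _ => ?_
    unfold so go
    by_cases ha : q.1 % 2 = 1 <;> by_cases hb : q.2 % 2 = 1 <;> simp [ha, hb, sq, hh]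
  rw [h1]
  refine card_bij' (fun s _ => ((s.2.1.1 : ℤ), (s.2.2.1 : ℤ), (s.2.2.2 : ℤ)))
    (fun v _ => ⟨(v.1.toNat * v.1.toNat, v.2.1.toNat * v.2.2.toNat),
      ((v.1.toNat, v.1.toNat), (v.2.1.toNat, v.2.2.toNat))⟩) ?_ ?_ ?_ ?_
  · rintro ⟨⟨k, l⟩, ⟨⟨a, x⟩, ⟨b, y⟩⟩⟩ hs
    simp only [mem_sigma, HasAntidiagonal.mem_antidiagonal, mem_product, mem_filter,
      Nat.mem_divisorsAntidiagonal] at hs
    obtain ⟨⟨h2, hk, hl⟩, ⟨h3, h4⟩, h5, h6⟩ := hs
    subst h4
    rw [mem_J]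
    obtain ⟨ha, -⟩ := pos_of h3
    obtain ⟨hb, hy⟩ := pos_of h5
    have hby : b % 2 = 1 ∧ y % 2 = 1 := by
      rw [← h5.1, Nat.odd_iff.symm, Nat.odd_mul, Nat.odd_iff, Nat.odd_iff] at hl
      exact hl
    refine ⟨⟨⟨by simpa using hb, by simpa using hy, ?_⟩, by simp only; omega, by simp only; omega⟩,
      by simpa using ha, ?_⟩
    · rw [← h2, ← h3.1, ← h5.1]; push_cast; ring
    · simp only; exact_mod_cast h6
  · rintro ⟨x, y, z⟩ hv
    rw [mem_J] at hv
    obtain ⟨⟨⟨hy, hz, h⟩, hy2, hz2⟩, hx, hyz⟩ := hv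
    have hpar := par_O x y z (by rw [h]; omega) hy2 hz2
    obtain ⟨x', rfl⟩ := Int.eq_ofNat_of_zero_le hx.le
    obtain ⟨y', rfl⟩ := Int.eq_ofNat_of_zero_le hy.le
    obtain ⟨z', rfl⟩ := Int.eq_ofNat_of_zero_le hz.le
    simp only [Int.toNat_natCast, mem_sigma, HasAntidiagonal.mem_antidiagonal, mem_product,
      mem_filter, Nat.mem_divisorsAntidiagonal]
    have hx' : 0 < x' := by exact_mod_cast hx
    have hy' : 0 < y' := by exact_mod_cast hy
    have hz' : 0 < z' := by exact_mod_cast hz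
    refine ⟨⟨?_, ?_, ?_⟩, ⟨⟨trivial, (Nat.mul_pos hx' hx').ne'⟩, trivial⟩,
      ⟨trivial, (Nat.mul_pos hy' hz').ne'⟩, ?_⟩
    · have : x' ^ 2 + y' * z' = n := by exact_mod_cast h
      rw [← this]; ring
    · rw [Nat.odd_iff.symm, Nat.odd_mul, Nat.odd_iff]; omega
    · rw [Nat.odd_iff.symm, Nat.odd_mul, Nat.odd_iff, Nat.odd_iff]; omega
    · exact_mod_cast hyz
  · rintro ⟨⟨k, l⟩, ⟨⟨a, x⟩, ⟨b, y⟩⟩⟩ hs
    simp only [mem_sigma, HasAntidiagonal.mem_antidiagonal, mem_product, mem_filter,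
      Nat.mem_divisorsAntidiagonal] at hs
    obtain ⟨-, ⟨h3, h4⟩, h5, h6⟩ := hs
    subst h4
    simp only [Int.toNat_natCast, h3.1, h5.1]
  · rintro ⟨x, y, z⟩ hv
    rw [mem_J] at hv
    obtain ⟨⟨⟨hy, hz, h⟩, hy2, hz2⟩, hx, hyz⟩ := hv
    simp only [Int.toNat_of_nonneg hx.le, Int.toNat_of_nonneg hy.le, Int.toNat_of_nonneg hz.le]

theorem no_sq_sq (n : ℕ) (h2 : ∀ u v : ℤ, u ^ 2 + v ^ 2 ≠ n) (k l : ℕ) (h : k + l = n) :
    sq k * sq l = 0 := by
  by_contra hne
  obtain ⟨a, -, ha⟩ := sq_ne (left_ne_zero_of_mul hne)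
  obtain ⟨b, -, hb⟩ := sq_ne (right_ne_zero_of_mul hne)
  apply h2 a b
  rw [← ha, ← hb] at h
  rw [← h]
  push_cast
  ring

/-- the all-odd class modulo `8` -/
theorem CC_1111_mod (M : ℕ) (hM : M % 2 = 1) (h2 : ∀ u v : ℤ, u ^ 2 + v ^ 2 ≠ ((2 * M : ℕ) : ℤ)) :
    CC (2 * M) 1 1 1 1 % 8 = (4 * hh M + 4 * (J ((2 * M : ℕ) : ℤ)).card) % 8 := by
  have hs : ∑ q ∈ antidiagonal (2 * M), go q.1 * so q.2
      = ∑ q ∈ antidiagonal (2 * M), so q.1 * go q.2 := by
    refine sum_nbij' Prod.swap Prod.swap ?_ ?_ ?_ ?_ ?_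
    · intro q hq
      rw [HasAntidiagonal.mem_antidiagonal] at hq ⊢
      rw [← hq]; exact add_comm _ _
    · intro q hq
      rw [HasAntidiagonal.mem_antidiagonal] at hq ⊢
      rw [← hq]; exact add_comm _ _
    · intro q _; rfl
    · intro q _; rfl
    · intro q _; exact mul_comm _ _
  have h1 : CC (2 * M) 1 1 1 1 = 4 * ∑ q ∈ antidiagonal (2 * M), go q.1 * go q.2
      + 2 * ∑ q ∈ antidiagonal (2 * M), go q.1 * so q.2
      + 2 * ∑ q ∈ antidiagonal (2 * M), so q.1 * go q.2 := by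
    rw [CC_1111, mul_sum, mul_sum, mul_sum, ← sum_add_distrib, ← sum_add_distrib]
    refine sum_congr rfl fun q hq => ?_
    rw [HasAntidiagonal.mem_antidiagonal] at hq
    rw [ddo_eq, ddo_eq]
    have : so q.1 * so q.2 = 0 := by
      have := no_sq_sq (2 * M) h2 q.1 q.2 hq
      unfold so
      split_ifs
      · exact this
      · exact mul_zero _
      · exact zero_mul _
      · exact zero_mul _
    nlinarith
  rw [h1, hs, card_J (2 * M) (by omega)]
  have h3 := sym_parity go M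
  have h4 : go M = hh M := by unfold go; rw [if_pos hM]
  rw [h4] at h3
  omega

/-- fixed points of the flip -/
noncomputable def F (n : ℤ) : Finset (ℤ × ℤ × ℤ) := (P n).filter fun v => v.2.2 = 2 * v.2.1

theorem mem_P {n x y z : ℤ} : (x, y, z) ∈ P n ↔ (0 < y ∧ 0 < z ∧ x ^ 2 + y * z = n) ∧ 0 < x ∧ y < z := by
  unfold P; rw [mem_filter, mem_U]

theorem mem_F {n x y z : ℤ} : (x, y, z) ∈ F n ↔
    ((0 < y ∧ 0 < z ∧ x ^ 2 + y * z = n) ∧ 0 < x ∧ y < z) ∧ z = 2 * y := by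
  unfold F; rw [mem_filter, mem_P]

theorem J_parity (n : ℤ) (hn : n % 4 = 2) :
    ((P n).card : ZMod 2) = (J n).card + (F n).card := by
  have e1 : (P n).card = (J n).card + ((P n).filter fun v => v.2.1 % 2 = 0 ∨ v.2.2 % 2 = 0).card := by
    have : J n = (P n).filter fun v => ¬ (v.2.1 % 2 = 0 ∨ v.2.2 % 2 = 0) := by
      ext ⟨x, y, z⟩
      rw [mem_J, mem_filter, mem_P]
      simp only
      constructor
      · rintro ⟨⟨h1, h2, h3⟩, h4⟩
        exact ⟨⟨h1, h4⟩, by omega⟩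
      · rintro ⟨⟨h1, h4⟩, h5⟩
        exact ⟨⟨h1, by omega, by omega⟩, h4⟩
    rw [this, add_comm, card_filter_add_card_filter_not]
  have e2 : (((P n).filter fun v => v.2.1 % 2 = 0 ∨ v.2.2 % 2 = 0).card : ZMod 2)
      = (F n).card := by
    have e3 : F n = ((P n).filter fun v => v.2.1 % 2 = 0 ∨ v.2.2 % 2 = 0).filter
        fun v => v.2.2 = 2 * v.2.1 := by
      ext ⟨x, y, z⟩
      rw [mem_F, mem_filter, mem_filter, mem_P]
      simp only
      constructor
      · rintro ⟨h1, h2⟩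
        exact ⟨⟨h1, by omega⟩, h2⟩
      · rintro ⟨⟨h1, h2⟩, h3⟩
        exact ⟨h1, h3⟩
    rw [e3, card_eq_sum_ones, card_eq_sum_ones, Nat.cast_sum, Nat.cast_sum,
      ← sum_filter_add_sum_filter_not ((P n).filter fun v => v.2.1 % 2 = 0 ∨ v.2.2 % 2 = 0)
        (fun v => v.2.2 = 2 * v.2.1)]
    have e4 : ∑ v ∈ ((P n).filter fun v => v.2.1 % 2 = 0 ∨ v.2.2 % 2 = 0).filter
        (fun v => ¬ v.2.2 = 2 * v.2.1), ((1 : ℕ) : ZMod 2) = 0 := by
      refine sum_involution (fun v _ =>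
        if v.2.2 % 2 = 0 then
          (if v.2.2 < 4 * v.2.1 then (v.1, v.2.2 / 2, 2 * v.2.1) else (v.1, 2 * v.2.1, v.2.2 / 2))
        else (v.1, v.2.1 / 2, 2 * v.2.2)) ?_ ?_ ?_ ?_
      · intro v _; exact CharTwo.add_self_eq_zero _
      · rintro ⟨x, y, z⟩ hv _
        rw [mem_filter, mem_filter, mem_P] at hv
        obtain ⟨⟨⟨⟨hy, hz, h⟩, hx, hyz⟩, h2⟩, h3⟩ := hv
        simp only at h2 h3 ⊢
        split_ifs with c1 c2 <;> simp only [ne_eq, Prod.mk.injEq, true_and] <;> omega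
      · rintro ⟨x, y, z⟩ hv
        rw [mem_filter, mem_filter, mem_P] at hv
        obtain ⟨⟨⟨⟨hy, hz, h⟩, hx, hyz⟩, h2⟩, h3⟩ := hv
        simp only at h2 h3
        simp only
        by_cases c1 : z % 2 = 0
        · have hp := par_E x y z (by rw [h]; exact hn) c1
          obtain ⟨b, rfl⟩ : ∃ b, z = 2 * b := ⟨z / 2, by omega⟩
          rw [if_pos c1, show 2 * b / 2 = b by omega]
          split_ifs with c2
          · rw [mem_filter, mem_filter, mem_P]
            exact ⟨⟨⟨⟨by omega, by omega, by rw [← h]; ring⟩, hx, by omega⟩, by simp only; omega⟩,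
              by simp only; omega⟩
          · rw [mem_filter, mem_filter, mem_P]
            exact ⟨⟨⟨⟨by omega, by omega, by rw [← h]; ring⟩, hx, by omega⟩, by simp only; omega⟩,
              by simp only; omega⟩
        · rw [if_neg c1]
          obtain ⟨b, rfl⟩ : ∃ b, y = 2 * b := ⟨y / 2, by omega⟩
          rw [show 2 * b / 2 = b by omega, mem_filter, mem_filter, mem_P]
          exact ⟨⟨⟨⟨by omega, by omega, by rw [← h]; ring⟩, hx, by omega⟩, by simp only; omega⟩,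
              by simp only; omega⟩
      · rintro ⟨x, y, z⟩ hv
        rw [mem_filter, mem_filter, mem_P] at hv
        obtain ⟨⟨⟨⟨hy, hz, h⟩, hx, hyz⟩, h2⟩, h3⟩ := hv
        simp only at h2 h3
        simp only
        by_cases c1 : z % 2 = 0
        · have hp := par_E x y z (by rw [h]; exact hn) c1
          obtain ⟨b, rfl⟩ : ∃ b, z = 2 * b := ⟨z / 2, by omega⟩
          rw [if_pos c1, show 2 * b / 2 = b by omega]
          by_cases c2 : 2 * b < 4 * y
          · rw [if_pos c2]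
            simp only
            rw [if_pos (by omega), if_pos (by omega), show 2 * y / 2 = y by omega]
          · rw [if_neg c2]
            simp only
            rw [if_neg (by omega), show 2 * y / 2 = y by omega]
        · have hp := par_E x z y (by rw [mul_comm z y, h]; exact hn) (by omega)
          rw [if_neg c1]
          obtain ⟨b, rfl⟩ : ∃ b, y = 2 * b := ⟨y / 2, by omega⟩
          rw [show 2 * b / 2 = b by omega]
          simp only
          rw [if_pos (by omega), if_neg (by omega), show 2 * z / 2 = z by omega]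
    rw [e4, add_zero]
  rw [e1, Nat.cast_add, e2]

/-- the sum over `x = 0` for `M ≡ 3 (mod 4)` -/
theorem sum_zero' (M : ℤ) (hM : M % 4 = 3) :
    ∑ v ∈ (U (2 * M)).filter (fun v => v.1 = 0), chi v.2.1 v.2.2 = 0 := by
  refine sum_involution (fun v _ => if v.2.2 % 2 = 0 then (0, v.2.2 / 2, 2 * v.2.1)
    else (0, 2 * v.2.2, v.2.1 / 2)) ?_ ?_ ?_ ?_
  · rintro ⟨x, y, z⟩ hv
    rw [mem_filter, mem_U] at hv
    obtain ⟨⟨hy, hz, h⟩, hx⟩ := hv
    simp only at hx
    subst hx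
    simp only
    have h' : y * z = 2 * M := by rw [← h]; ring
    by_cases c1 : z % 2 = 0
    · rw [if_pos c1]
      obtain ⟨b, rfl⟩ : ∃ b, z = 2 * b := ⟨z / 2, by omega⟩
      rw [show 2 * b / 2 = b by omega]
      have hM' : y * b = M := by linarith
      rw [← hM'] at hM
      simp only
      unfold chi
      rcases mod4 y with hy4 | hy4 | hy4 | hy4 <;> rcases mod4 b with hb4 | hb4 | hb4 | hb4 <;>
        simp [Int.mul_emod, hy4, hb4] at hM <;>
        (split_ifs <;> first | rfl | (exfalso; omega))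
    · rw [if_neg c1]
      have hy2 : y % 2 = 0 := by
        by_contra hc
        have h3 : (y * z) % 2 = 1 := by
          rw [Int.mul_emod, show y % 2 = 1 by omega, show z % 2 = 1 by omega]; norm_num
        omega
      obtain ⟨b, rfl⟩ : ∃ b, y = 2 * b := ⟨y / 2, by omega⟩
      rw [show 2 * b / 2 = b by omega]
      have hM' : z * b = M := by linarith
      rw [← hM'] at hM
      simp only
      unfold chi
      rcases mod4 z with hy4 | hy4 | hy4 | hy4 <;> rcases mod4 b with hb4 | hb4 | hb4 | hb4 <;>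
        simp [Int.mul_emod, hy4, hb4] at hM <;>
        (split_ifs <;> first | rfl | (exfalso; omega))
  · rintro ⟨x, y, z⟩ hv _
    rw [mem_filter, mem_U] at hv
    obtain ⟨⟨hy, hz, h⟩, hx⟩ := hv
    simp only at hx
    subst hx
    simp only
    have h' : y * z = 2 * M := by rw [← h]; ring
    by_cases c1 : z % 2 = 0
    · rw [if_pos c1]
      intro he
      simp only [Prod.mk.injEq, true_and] at he
      have hz' : z = 2 * y := by omega
      have hM' : y * y = M := by rw [hz'] at h'; linarith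
      rw [← hM'] at hM
      rcases mod4 y with hy4 | hy4 | hy4 | hy4 <;> simp [Int.mul_emod, hy4] at hM
    · rw [if_neg c1]
      intro he
      simp only [Prod.mk.injEq, true_and] at he
      have hz' : y = 2 * z := by omega
      have hM' : z * z = M := by rw [hz'] at h'; linarith
      rw [← hM'] at hM
      rcases mod4 z with hy4 | hy4 | hy4 | hy4 <;> simp [Int.mul_emod, hy4] at hM
  · rintro ⟨x, y, z⟩ hv
    rw [mem_filter, mem_U] at hv
    obtain ⟨⟨hy, hz, h⟩, hx⟩ := hv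
    simp only at hx
    subst hx
    simp only
    have h' : y * z = 2 * M := by rw [← h]; ring
    by_cases c1 : z % 2 = 0
    · rw [if_pos c1]
      obtain ⟨b, rfl⟩ : ∃ b, z = 2 * b := ⟨z / 2, by omega⟩
      rw [show 2 * b / 2 = b by omega, mem_filter, mem_U]
      exact ⟨⟨by omega, by omega, by rw [← h']; ring⟩, rfl⟩
    · rw [if_neg c1]
      have hy2 : y % 2 = 0 := by
        by_contra hc
        have h3 : (y * z) % 2 = 1 := by
          rw [Int.mul_emod, show y % 2 = 1 by omega, show z % 2 = 1 by omega]; norm_num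
        omega
      obtain ⟨b, rfl⟩ : ∃ b, y = 2 * b := ⟨y / 2, by omega⟩
      rw [show 2 * b / 2 = b by omega, mem_filter, mem_U]
      exact ⟨⟨by omega, by omega, by rw [← h']; ring⟩, rfl⟩
  · rintro ⟨x, y, z⟩ hv
    rw [mem_filter, mem_U] at hv
    obtain ⟨⟨hy, hz, h⟩, hx⟩ := hv
    simp only at hx
    subst hx
    simp only
    have h' : y * z = 2 * M := by rw [← h]; ring
    by_cases c1 : z % 2 = 0
    · simp only [if_pos c1]
      rw [if_pos (by omega)]
      simp only [Prod.mk.injEq, true_and]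
      omega
    · have hy2 : y % 2 = 0 := by
        by_contra hc
        have h3 : (y * z) % 2 = 1 := by
          rw [Int.mul_emod, show y % 2 = 1 by omega, show z % 2 = 1 by omega]; norm_num
        omega
      obtain ⟨b, rfl⟩ : ∃ b, y = 2 * b := ⟨y / 2, by omega⟩
      have hM' : z * b = M := by linarith
      have hb2 : b % 2 = 1 := by
        by_contra hc
        have h3 : (z * b) % 2 = 0 := by
          rw [Int.mul_emod, show b % 2 = 0 by omega]; norm_num
        omega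
      simp only [if_neg c1, show 2 * b / 2 = b by omega]
      rw [if_neg (by omega)]
      simp only [Prod.mk.injEq, true_and]
      omega

theorem even_P' (M : ℤ) (hM : M % 4 = 3) (h2 : ∀ u v : ℤ, u ^ 2 + v ^ 2 ≠ 2 * M) :
    2 ∣ (P (2 * M)).card := by
  have h4 := four_sum (2 * M) (by omega) h2
  rw [sum_zero' M hM, add_zero] at h4
  have h5 : ∑ v ∈ P (2 * M), chi v.2.1 v.2.2 = 0 := by omega
  have h6 : ((P (2 * M)).card : ℤ) = ∑ v ∈ P (2 * M), (chi v.2.1 v.2.2 + 1) := by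
    rw [sum_add_distrib, h5, zero_add, card_eq_sum_ones]
    push_cast
    rfl
  have h7 : (2 : ℤ) ∣ ((P (2 * M)).card : ℤ) := by
    rw [h6]
    refine Finset.dvd_sum fun v _ => ?_
    rcases chi_pm v.2.1 v.2.2 with h | h <;> rw [h] <;> norm_num
  exact_mod_cast h7

end Pool.Agent.X13.TP
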