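import Pool.Agent.X13.TP.Rank2

/-!
# The remaining fixed points, and the main theorem on ranks
-/

namespace Pool.Agent.X13.TP

open Finset

theorem F_empty7 (M : ℤ) (hM : M % 8 = 7) : (F (2 * M)).card = 0 := by
  rw [card_eq_zero, eq_empty_iff_forall_notMem]
  rintro ⟨x, y, z⟩ hv
  rw [mem_F] at hv
  obtain ⟨⟨⟨hy, hz, h⟩, hx, hyz⟩, h2⟩ := hv
  subst h2
  have hx2 := par_E x y (2 * y) (by rw [h]; omega) (by omega)
  obtain ⟨t, rfl⟩ : ∃ t, x = 2 * t := ⟨x / 2, by omega⟩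
  have h3 : 2 * t ^ 2 + y ^ 2 = M := by linarith
  have h4 : ((2 * t ^ 2 + y ^ 2 : ℤ) : ZMod 8) = ((7 : ℤ) : ZMod 8) := by
    rw [h3]
    exact (ZMod.intCast_eq_intCast_iff _ _ _).mpr (by show M % ((8 : ℕ) : ℤ) = 7 % ((8 : ℕ) : ℤ); push_cast; omega)
  push_cast at h4
  have : ∀ t y : ZMod 8, 2 * t ^ 2 + y ^ 2 ≠ 7 := by decide
  exact this _ _ h4

theorem F_empty_seven (r : ℤ) (hr : r % 2 = 1) (h7 : ¬ (7 : ℤ) ∣ r) : (F (2 * (7 * r))).card = 0 := by
  rw [card_eq_zero, eq_empty_iff_forall_notMem]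
  rintro ⟨x, y, z⟩ hv
  rw [mem_F] at hv
  obtain ⟨⟨⟨hy, hz, h⟩, hx, hyz⟩, h2⟩ := hv
  subst h2
  have hx2 := par_E x y (2 * y) (by rw [h]; omega) (by omega)
  obtain ⟨t, rfl⟩ : ∃ t, x = 2 * t := ⟨x / 2, by omega⟩
  have h3 : 2 * t ^ 2 + y ^ 2 = 7 * r := by linarith
  have h4 : ((2 * t ^ 2 + y ^ 2 : ℤ) : ZMod 7) = 0 := by
    rw [h3]
    exact (ZMod.intCast_zmod_eq_zero_iff_dvd _ 7).mpr ⟨r, by push_cast; ring⟩
  push_cast at h4
  have : ∀ t y : ZMod 7, 2 * t ^ 2 + y ^ 2 = 0 → t = 0 ∧ y = 0 := by decide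
  obtain ⟨h5, h6⟩ := this _ _ h4
  obtain ⟨a, ha⟩ := (ZMod.intCast_zmod_eq_zero_iff_dvd t 7).mp h5
  obtain ⟨b, hb⟩ := (ZMod.intCast_zmod_eq_zero_iff_dvd y 7).mp h6
  push_cast at ha hb
  apply h7
  refine ⟨2 * a ^ 2 + b ^ 2, ?_⟩
  rw [ha, hb] at h3
  linarith

theorem F_even_three (r : ℤ) (hr : r % 2 = 1) (h3 : ¬ (3 : ℤ) ∣ r) (hsq : ∀ s : ℤ, s ^ 2 ≠ r) :
    2 ∣ (F (2 * (3 * r))).card := by
  have key : ((F (2 * (3 * r))).card : ZMod 2) = 0 := by
    rw [card_eq_sum_ones, Nat.cast_sum]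
    have hno : ∀ x y : ℤ, x ^ 2 + y * (2 * y) = 2 * (3 * r) → x % 3 = 0 → y % 3 = 0 → False := by
      intro x y h hx hy
      obtain ⟨a, rfl⟩ : ∃ a, x = 3 * a := ⟨x / 3, by omega⟩
      obtain ⟨b, rfl⟩ : ∃ b, y = 3 * b := ⟨y / 3, by omega⟩
      have : 3 * (a ^ 2 + 2 * b ^ 2) = 2 * r := by linarith
      apply h3
      omega
    have hdich : ∀ x y : ℤ, x ^ 2 + y * (2 * y) = 2 * (3 * r) → (x + y) % 3 = 0 ∨ (x - y) % 3 = 0 := by
      intro x y h
      have h4 : (x + y) * (x - y) = 3 * (2 * r - y ^ 2) := by linarith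
      have hp : Prime (3 : ℤ) := Int.prime_three
      rcases hp.dvd_or_dvd (show (3 : ℤ) ∣ (x + y) * (x - y) from ⟨_, h4⟩) with h5 | h5
      · exact Or.inl (Int.emod_eq_zero_of_dvd h5)
      · exact Or.inr (Int.emod_eq_zero_of_dvd h5)
    have hne1 : ∀ x y : ℤ, x ^ 2 + y * (2 * y) = 2 * (3 * r) → y ≠ 2 * x := by
      rintro x y h rfl
      have : 3 * x ^ 2 = 2 * r := by linarith
      apply h3
      omega
    have hne2 : ∀ x y : ℤ, x ^ 2 + y * (2 * y) = 2 * (3 * r) → x ≠ 4 * y := by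
      rintro x y h rfl
      have : 3 * y ^ 2 = r := by linarith
      apply h3
      exact ⟨_, this.symm⟩
    have hne3 : ∀ x y : ℤ, x ^ 2 + y * (2 * y) = 2 * (3 * r) → x ≠ 2 * y := by
      rintro x y h rfl
      have : y ^ 2 = r := by linarith
      exact hsq y this
    have hne4 : ∀ x y : ℤ, x ^ 2 + y * (2 * y) = 2 * (3 * r) → x ≠ y := by
      rintro x y h rfl
      have h5 : x ^ 2 = 2 * r := by linarith
      have h6 : (x ^ 2) % 4 = 2 := by rw [h5]; omega
      rcases mod4 x with h | h | h | h <;> simp [pow_two, Int.mul_emod, h] at h6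
    refine sum_involution (fun v _ => if (v.1 + v.2.1) % 3 = 0 then
      ((v.1 + v.2.1) / 3 + v.2.1, |2 * ((v.1 + v.2.1) / 3) - v.2.1|,
        2 * |2 * ((v.1 + v.2.1) / 3) - v.2.1|)
      else (|(v.1 - v.2.1) / 3 - v.2.1|, v.2.1 + 2 * ((v.1 - v.2.1) / 3),
        2 * (v.2.1 + 2 * ((v.1 - v.2.1) / 3)))) ?_ ?_ ?_ ?_
    · intro v _; exact CharTwo.add_self_eq_zero _
    · rintro ⟨x, y, z⟩ hv _
      rw [mem_F] at hv
      obtain ⟨⟨⟨hy, hz, h⟩, hx, hyz⟩, h2⟩ := hv
      subst h2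
      simp only
      by_cases c : (x + y) % 3 = 0
      · rw [if_pos c]
        obtain ⟨k, hk⟩ : ∃ k, x + y = 3 * k := ⟨(x + y) / 3, by omega⟩
        rw [hk, show 3 * k / 3 = k by omega]
        intro he
        simp only [Prod.mk.injEq] at he
        exact hne3 x y h (by omega)
      · rw [if_neg c]
        have c' := (hdich x y h).resolve_left c
        obtain ⟨m, hm⟩ : ∃ m, x - y = 3 * m := ⟨(x - y) / 3, by omega⟩
        rw [hm, show 3 * m / 3 = m by omega]
        intro he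
        simp only [Prod.mk.injEq] at he
        exact hne4 x y h (by omega)
    · rintro ⟨x, y, z⟩ hv
      rw [mem_F] at hv
      obtain ⟨⟨⟨hy, hz, h⟩, hx, hyz⟩, h2⟩ := hv
      subst h2
      simp only
      by_cases c : (x + y) % 3 = 0
      · rw [if_pos c]
        obtain ⟨k, hk⟩ : ∃ k, x + y = 3 * k := ⟨(x + y) / 3, by omega⟩
        rw [hk, show 3 * k / 3 = k by omega, mem_F]
        have hpos : 0 < |2 * k - y| := abs_pos.mpr (by
          intro h0
          exact hne1 x y h (by omega))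
        refine ⟨⟨⟨hpos, by omega, ?_⟩, by omega, by omega⟩, rfl⟩
        have e : |2 * k - y| * (2 * |2 * k - y|) = 2 * (2 * k - y) ^ 2 := by
          rw [← sq_abs (2 * k - y)]; ring
        rw [e, ← h]
        have hx' : x = 3 * k - y := by omega
        rw [hx']; ring
      · rw [if_neg c]
        have c' := (hdich x y h).resolve_left c
        obtain ⟨m, hm⟩ : ∃ m, x - y = 3 * m := ⟨(x - y) / 3, by omega⟩
        rw [hm, show 3 * m / 3 = m by omega, mem_F]
        have hpos : 0 < |m - y| := abs_pos.mpr (by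
          intro h0
          exact hne2 x y h (by omega))
        refine ⟨⟨⟨by omega, by omega, ?_⟩, hpos, by omega⟩, rfl⟩
        rw [sq_abs, ← h]
        have hx' : x = 3 * m + y := by omega
        rw [hx']; ring
    · rintro ⟨x, y, z⟩ hv
      rw [mem_F] at hv
      obtain ⟨⟨⟨hy, hz, h⟩, hx, hyz⟩, h2⟩ := hv
      subst h2
      simp only
      by_cases c : (x + y) % 3 = 0
      · simp only [if_pos c]
        obtain ⟨k, hk⟩ : ∃ k, x + y = 3 * k := ⟨(x + y) / 3, by omega⟩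
        have hx' : x = 3 * k - y := by omega
        rw [hk, show 3 * k / 3 = k by omega]
        have hkne : 2 * k - y ≠ 0 := by
          intro h0
          exact hne1 x y h (by omega)
        rcases lt_or_gt_of_ne hkne with h0 | h0
        · rw [abs_of_neg h0]
          have hneg : ¬ (k + y + -(2 * k - y)) % 3 = 0 := by
            intro h1
            refine hno (k + y) (-(2 * k - y)) ?_ (by omega) (by omega)
            rw [← h, hx']; ring
          rw [if_neg hneg]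
          have e1 : (k + y - -(2 * k - y)) / 3 = k := by omega
          rw [e1]
          have e2 : |k - -(2 * k - y)| = x := by
            rw [hx', show k - -(2 * k - y) = 3 * k - y by ring]
            exact abs_of_pos (by omega)
          rw [e2]
          simp only [Prod.mk.injEq, true_and]
          omega
        · rw [abs_of_pos h0]
          rw [if_pos (by omega)]
          have e1 : (k + y + (2 * k - y)) / 3 = k := by omega
          rw [e1]
          have e2 : |2 * k - (2 * k - y)| = y := by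
            rw [show 2 * k - (2 * k - y) = y by ring]
            exact abs_of_pos hy
          rw [e2]
          simp only [Prod.mk.injEq, and_true]
          omega
      · have c' := (hdich x y h).resolve_left c
        simp only [if_neg c]
        obtain ⟨m, hm⟩ : ∃ m, x - y = 3 * m := ⟨(x - y) / 3, by omega⟩
        have hx' : x = 3 * m + y := by omega
        rw [hm, show 3 * m / 3 = m by omega]
        have hkne : m - y ≠ 0 := by
          intro h0
          exact hne2 x y h (by omega)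
        rcases lt_or_gt_of_ne hkne with h0 | h0
        · rw [abs_of_neg h0]
          have hneg : ¬ (-(m - y) + (y + 2 * m)) % 3 = 0 := by
            intro h1
            refine hno (-(m - y)) (y + 2 * m) ?_ (by omega) (by omega)
            rw [← h, hx']; ring
          rw [if_neg hneg]
          have e1 : (-(m - y) - (y + 2 * m)) / 3 = -m := by omega
          rw [e1]
          have e2 : |-m - (y + 2 * m)| = x := by
            rw [hx', show -m - (y + 2 * m) = -(3 * m + y) by ring, abs_neg]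
            exact abs_of_pos (by omega)
          rw [e2]
          simp only [Prod.mk.injEq, true_and]
          omega
        · rw [abs_of_pos h0]
          rw [if_pos (by omega)]
          have e1 : (m - y + (y + 2 * m)) / 3 = m := by omega
          rw [e1]
          have e2 : |2 * m - (y + 2 * m)| = y := by
            rw [show 2 * m - (y + 2 * m) = -y by ring, abs_neg]
            exact abs_of_pos hy
          rw [e2]
          simp only [Prod.mk.injEq, and_true]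
          omega
  exact (ZMod.natCast_eq_zero_iff _ _).mp key

theorem NN_mod (M : ℕ) (h2 : ∀ u v : ℤ, u ^ 2 + v ^ 2 ≠ ((2 * M : ℕ) : ℤ)) :
    NN (2 * M) % 8 = (4 * hh M + 4 * (P ((2 * M : ℕ) : ℤ)).card) % 8 := by
  have hs : ∑ q ∈ antidiagonal (2 * M), hh q.1 * sq q.2
      = ∑ q ∈ antidiagonal (2 * M), sq q.1 * hh q.2 := by
    refine sum_nbij' Prod.swap Prod.swap ?_ ?_ ?_ ?_ ?_
    · intro q hq
      rw [HasAntidiagonal.mem_antidiagonal] at hq ⊢
      rw [← hq]; exact add_comm _ _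
    · intro q hq
      rw [HasAntidiagonal.mem_antidiagonal] at hq ⊢
      rw [← hq]; exact add_comm _ _
    · intro q _; rfl
    · intro q _; rfl
    · intro q _; exact mul_comm _ _
  have h1 : NN (2 * M) = 4 * ∑ q ∈ antidiagonal (2 * M), hh q.1 * hh q.2
      + 2 * ∑ q ∈ antidiagonal (2 * M), hh q.1 * sq q.2
      + 2 * ∑ q ∈ antidiagonal (2 * M), sq q.1 * hh q.2 := by
    unfold NN
    rw [mul_sum, mul_sum, mul_sum, ← sum_add_distrib, ← sum_add_distrib]
    refine sum_congr rfl fun q hq => ?_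
    rw [HasAntidiagonal.mem_antidiagonal] at hq
    rw [dd_eq, dd_eq]
    have := no_sq_sq (2 * M) h2 q.1 q.2 hq
    nlinarith
  rw [h1, hs, card_P (2 * M)]
  have h3 := sym_parity hh M
  omega

/-- the number of quadruples with `λ₂ < λ₁` is `ν₂` -/
theorem card_P2 (n : ℕ) : ((R n).filter fun v => v.2.2.1 < v.1).card = nu 2 n := by
  rw [nu_two]
  refine card_bij' (fun v _ => ⟨(v.1 * v.2.1, v.2.2.1 * v.2.2.2), ((v.1, v.2.1), (v.2.2.1, v.2.2.2))⟩)
    (fun s _ => (s.2.1.1, s.2.1.2, s.2.2.1, s.2.2.2)) ?_ ?_ ?_ ?_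
  · rintro ⟨a, x, b, y⟩ hv
    rw [mem_filter, mem_R] at hv
    obtain ⟨⟨h1, h2, h3, h4, h5⟩, h7⟩ := hv
    rw [mem_filter, mem_Q]
    exact ⟨⟨h5, ⟨rfl, (Nat.mul_pos h1 h2).ne'⟩, ⟨rfl, (Nat.mul_pos h3 h4).ne'⟩⟩, h7⟩
  · rintro ⟨⟨k, l⟩, ⟨⟨a, x⟩, ⟨b, y⟩⟩⟩ hs
    rw [mem_filter, mem_Q] at hs
    obtain ⟨⟨h0, h1, h4⟩, h7⟩ := hs
    obtain ⟨ha, hx⟩ := pos_of h1
    obtain ⟨hb, hy⟩ := pos_of h4
    rw [mem_filter, mem_R]
    exact ⟨⟨ha, hx, hb, hy, by rw [h1.1, h4.1, h0]⟩, h7⟩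
  · rintro ⟨a, x, b, y⟩ _; rfl
  · rintro ⟨⟨k, l⟩, ⟨⟨a, x⟩, ⟨b, y⟩⟩⟩ hs
    rw [mem_filter, mem_Q] at hs
    obtain ⟨⟨h0, h1, h4⟩, h7⟩ := hs
    simp only [h1.1, h4.1]

/-- the main theorem on ranks -/
theorem rank_main (M : ℕ) (hM : M % 2 = 1) (h2 : ∀ u v : ℤ, u ^ 2 + v ^ 2 ≠ ((2 * M : ℕ) : ℤ))
    (hP : 2 ∣ (P ((2 * M : ℕ) : ℤ)).card) (hF : 2 ∣ (F ((2 * M : ℕ) : ℤ)).card)
    (hs : 8 ∣ ∑ a ∈ M.divisors, a) :
    4 ∣ ((R (2 * M)).filter fun v => v.2.2.1 < v.1 ∧ (v.1 + v.2.2.1 + v.2.2.2) % 2 = 0).card ∧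
    4 ∣ nu 2 (2 * M) ∧
    (4 ∣ M.divisors.card →
      4 ∣ ((R (2 * M)).filter fun v => v.2.2.1 < v.1 ∧ (v.1 + v.2.1 + v.2.2.2) % 2 = 0).card) := by
  obtain ⟨r1, r2⟩ := rank_identities M hM
  have hZ := CC_1111_mod M hM h2
  have hJ : 2 ∣ (J ((2 * M : ℕ) : ℤ)).card := by
    have h := J_parity ((2 * M : ℕ) : ℤ) (by push_cast; omega)
    rw [(ZMod.natCast_eq_zero_iff _ _).mpr hP, (ZMod.natCast_eq_zero_iff _ _).mpr hF, add_zero] at h
    exact (ZMod.natCast_eq_zero_iff _ _).mp h.symm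
  have hsq : sq M = 0 := by
    by_contra hne
    obtain ⟨a, -, ha⟩ := sq_ne hne
    apply h2 a a
    rw [← ha]; push_cast; ring
  have hd : M.divisors.card = 2 * hh M := by
    rw [← dd_card, dd_eq, hsq]; ring
  have hNN := NN_mod M h2
  have hnu := nu_eq (2 * M) (by omega)
  have hcop2 : Nat.Coprime 2 M := by
    rw [Nat.coprime_two_left]
    exact Nat.odd_iff.mpr hM
  have hd2 : (2 * M).divisors.card = 4 * hh M := by
    rw [Nat.Coprime.card_divisors_mul hcop2, hd]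
    have : (Nat.divisors 2).card = 2 := by decide
    rw [this]; ring
  have hs2 : ∑ a ∈ (2 * M).divisors, a = 3 * ∑ a ∈ M.divisors, a := by
    rw [Nat.Coprime.sum_divisors_mul hcop2]
    have : ∑ a ∈ Nat.divisors 2, a = 3 := by decide
    rw [this]
  rw [hs2, hd2] at hnu
  rw [hd] at r1 r2 ⊢
  refine ⟨by omega, by omega, fun h => by omega⟩

end Pool.Agent.X13.TP
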