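import Pool.Agent.X13.TP.Main

/-!
# Parity of the number of solutions of `x² + y z = n`, `z` even, `0 < y < x`
-/

namespace Pool.Agent.X13.TP

open Finset

theorem par_E (x y z : ℤ) (h : (x ^ 2 + y * z) % 4 = 2) (hz : z % 2 = 0) :
    x % 2 = 0 ∧ y % 2 = 1 ∧ z % 4 = 2 := by
  rcases mod4 x with hx | hx | hx | hx <;> rcases mod4 y with hy | hy | hy | hy <;>
    rcases mod4 z with hz' | hz' | hz' | hz' <;>
    simp [pow_two, Int.add_emod, Int.mul_emod, hx, hy, hz'] at h <;> omega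

theorem par_O (x y z : ℤ) (h : (x ^ 2 + y * z) % 4 = 2) (hy' : y % 2 = 1) (hz : z % 2 = 1) :
    x % 2 = 1 ∧ y % 4 = z % 4 := by
  rcases mod4 x with hx | hx | hx | hx <;> rcases mod4 y with hy | hy | hy | hy <;>
    rcases mod4 z with hz' | hz' | hz' | hz' <;>
    simp [pow_two, Int.add_emod, Int.mul_emod, hx, hy, hz'] at h <;> omega

/-- the weight -/
def bet (w : ℤ) : ZMod 2 := if w % 8 = 6 then 1 else 0

noncomputable def E1 (n : ℤ) : Finset (ℤ × ℤ × ℤ) := (U n).filter fun v => v.2.2 % 2 = 0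

noncomputable def Oo (n : ℤ) : Finset (ℤ × ℤ × ℤ) :=
  (U n).filter fun v => v.2.1 % 2 = 1 ∧ v.2.2 % 2 = 1

theorem mem_E1 {n x y z : ℤ} : (x, y, z) ∈ E1 n ↔ (0 < y ∧ 0 < z ∧ x ^ 2 + y * z = n) ∧ z % 2 = 0 := by
  unfold E1; rw [mem_filter, mem_U]

theorem mem_Oo {n x y z : ℤ} : (x, y, z) ∈ Oo n ↔
    (0 < y ∧ 0 < z ∧ x ^ 2 + y * z = n) ∧ y % 2 = 1 ∧ z % 2 = 1 := by
  unfold Oo; rw [mem_filter, mem_U]

/-- the count in question -/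
noncomputable def C3 (n : ℤ) : Finset (ℤ × ℤ × ℤ) := (E1 n).filter fun v => v.2.1 < v.1

theorem notsq {n : ℤ} (hn : n % 4 = 2) (w : ℤ) : w ^ 2 ≠ n := by
  intro hw
  rcases mod4 w with h | h | h | h <;>
    simp [pow_two, Int.mul_emod, h, ← hw] at hn

/-- (1) the sum over `E1` -/
theorem sum_E1 (n : ℤ) :
    ∑ v ∈ E1 n, bet v.2.2 = ∑ v ∈ (E1 n).filter (fun v => v.1 = 0), bet v.2.2 := by
  rw [← sum_filter_add_sum_filter_not (E1 n) (fun v => v.1 = 0)]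
  have : ∑ v ∈ (E1 n).filter (fun v => ¬ v.1 = 0), bet v.2.2 = 0 := by
    refine sum_involution (fun v _ => (-v.1, v.2.1, v.2.2)) ?_ ?_ ?_ ?_
    · intro v _
      exact CharTwo.add_self_eq_zero _
    · rintro ⟨x, y, z⟩ hv _ he
      rw [mem_filter] at hv
      simp only [Prod.mk.injEq] at he
      apply hv.2
      simp only
      omega
    · rintro ⟨x, y, z⟩ hv
      rw [mem_filter, mem_E1] at hv ⊢
      obtain ⟨⟨⟨hy, hz, h⟩, hz2⟩, hx⟩ := hv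
      refine ⟨⟨⟨hy, hz, by rw [← h]; ring⟩, hz2⟩, ?_⟩
      simp only at hx ⊢
      omega
    · rintro ⟨x, y, z⟩ _
      simp
  rw [this, add_zero]

/-- the part that cancels -/
theorem sum_T (n : ℤ) (hn : n % 4 = 2) :
    ∑ v ∈ (E1 n).filter (fun v => 0 < v.2.1 - 2 * v.1 - v.2.2), bet v.2.2 = 0 := by
  refine sum_involution (fun v _ => (-v.2.2 - v.1, v.2.1 - 2 * v.1 - v.2.2, v.2.2)) ?_ ?_ ?_ ?_
  · intro v _
    exact CharTwo.add_self_eq_zero _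
  · rintro ⟨x, y, z⟩ hv _ he
    rw [mem_filter, mem_E1] at hv
    obtain ⟨⟨⟨hy, hz, h⟩, hz2⟩, hx⟩ := hv
    simp only [Prod.mk.injEq] at he
    have := par_E x y z (by rw [h]; exact hn) hz2
    omega
  · rintro ⟨x, y, z⟩ hv
    rw [mem_filter, mem_E1] at hv ⊢
    obtain ⟨⟨⟨hy, hz, h⟩, hz2⟩, hx⟩ := hv
    simp only at hx ⊢
    exact ⟨⟨⟨hx, hz, by rw [← h]; ring⟩, hz2⟩, by linarith⟩
  · rintro ⟨x, y, z⟩ _
    simp only [Prod.mk.injEq]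
    refine ⟨by ring, by ring, trivial⟩

theorem sum_A (n : ℤ) (hn : n % 4 = 2) :
    ∑ v ∈ (E1 n).filter (fun v => 0 < v.2.2 + 2 * v.1 - v.2.1), bet v.2.2
      = ∑ v ∈ (E1 n).filter (fun v => v.1 = 0), bet v.2.2 := by
  rw [← sum_E1, ← sum_filter_add_sum_filter_not (E1 n) (fun v => 0 < v.2.2 + 2 * v.1 - v.2.1)]
  have : (E1 n).filter (fun v => ¬ 0 < v.2.2 + 2 * v.1 - v.2.1)
      = (E1 n).filter (fun v => 0 < v.2.1 - 2 * v.1 - v.2.2) := by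
    apply filter_congr
    rintro ⟨x, y, z⟩ hv
    rw [mem_E1] at hv
    obtain ⟨⟨hy, hz, h⟩, hz2⟩ := hv
    simp only
    have : z + 2 * x - y ≠ 0 := by
      intro h0
      apply notsq hn (x - y)
      rw [← h]
      have : z = y - 2 * x := by omega
      rw [this]; ring
    omega
  rw [this, sum_T n hn, add_zero]

theorem sum_B (n : ℤ) (hn : n % 4 = 2) :
    ∑ v ∈ (E1 n).filter (fun v => 0 < v.2.2 + 2 * v.1 - v.2.1), bet v.2.2
      = ∑ v ∈ (Oo n).filter (fun v => 0 < v.2.2 - 2 * v.1 - v.2.1),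
          bet (v.2.2 - 2 * v.1 - v.2.1) := by
  refine sum_bij' (fun v _ => (v.1 - v.2.1, v.2.1, v.2.2 + 2 * v.1 - v.2.1))
    (fun v _ => (v.1 + v.2.1, v.2.1, v.2.2 - 2 * v.1 - v.2.1)) ?_ ?_ ?_ ?_ ?_
  · rintro ⟨x, y, z⟩ hv
    rw [mem_filter, mem_E1] at hv
    rw [mem_filter, mem_Oo]
    obtain ⟨⟨⟨hy, hz, h⟩, hz2⟩, hx⟩ := hv
    simp only at hx ⊢
    have := par_E x y z (by rw [h]; exact hn) hz2
    exact ⟨⟨⟨hy, hx, by rw [← h]; ring⟩, by omega, by omega⟩, by linarith⟩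
  · rintro ⟨x, y, z⟩ hv
    rw [mem_filter, mem_Oo] at hv
    rw [mem_filter, mem_E1]
    obtain ⟨⟨⟨hy, hz, h⟩, hy2, hz2⟩, hx⟩ := hv
    simp only at hx ⊢
    exact ⟨⟨⟨hy, hx, by rw [← h]; ring⟩, by omega⟩, by linarith⟩
  · rintro ⟨x, y, z⟩ _
    simp only [Prod.mk.injEq]
    refine ⟨by ring, trivial, by ring⟩
  · rintro ⟨x, y, z⟩ _
    simp only [Prod.mk.injEq]
    refine ⟨by ring, trivial, by ring⟩
  · rintro ⟨x, y, z⟩ _
    simp only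
    congr 1
    ring

noncomputable def J (n : ℤ) : Finset (ℤ × ℤ × ℤ) := (Oo n).filter fun v => 0 < v.1 ∧ v.2.1 < v.2.2

theorem mem_J {n x y z : ℤ} : (x, y, z) ∈ J n ↔
    ((0 < y ∧ 0 < z ∧ x ^ 2 + y * z = n) ∧ y % 2 = 1 ∧ z % 2 = 1) ∧ 0 < x ∧ y < z := by
  unfold J; rw [mem_filter, mem_Oo]

theorem card_C3 (n : ℤ) (hn : n % 4 = 2) :
    (C3 n).card = ((J n).filter fun v => v.2.1 + 2 * v.1 < v.2.2).card := by
  unfold C3
  refine card_bij' (fun v _ => (v.1 - v.2.1, v.2.1, v.2.2 + 2 * v.1 - v.2.1))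
    (fun v _ => (v.1 + v.2.1, v.2.1, v.2.2 - 2 * v.1 - v.2.1)) ?_ ?_ ?_ ?_
  · rintro ⟨x, y, z⟩ hv
    rw [mem_filter, mem_E1] at hv
    rw [mem_filter, mem_J]
    obtain ⟨⟨⟨hy, hz, h⟩, hz2⟩, hx⟩ := hv
    simp only at hx ⊢
    have := par_E x y z (by rw [h]; exact hn) hz2
    exact ⟨⟨⟨⟨hy, by omega, by rw [← h]; ring⟩, by omega, by omega⟩, by omega, by omega⟩, by omega⟩
  · rintro ⟨x, y, z⟩ hv
    rw [mem_filter, mem_J] at hv
    rw [mem_filter, mem_E1]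
    obtain ⟨⟨⟨⟨hy, hz, h⟩, hy2, hz2⟩, hx, hyz⟩, hc⟩ := hv
    simp only at hc ⊢
    exact ⟨⟨⟨hy, by omega, by rw [← h]; ring⟩, by omega⟩, by omega⟩
  · rintro ⟨x, y, z⟩ _
    simp only [Prod.mk.injEq]
    refine ⟨by ring, trivial, by ring⟩
  · rintro ⟨x, y, z⟩ _
    simp only [Prod.mk.injEq]
    refine ⟨by ring, trivial, by ring⟩

theorem bet_add (u w : ℤ) (hu : u % 4 = 2) (hw : w % 4 = 2) (h : (w - u) % 8 = 4) :
    bet u + bet w = 1 := by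
  unfold bet
  split_ifs with h1 h2 h2
  · omega
  · rfl
  · rfl
  · omega

theorem bet_add' (u w : ℤ) (hu : u % 4 = 2) (hw : w % 4 = 2) (h : (w + u) % 8 = 4) :
    bet u + bet w = 0 := by
  unfold bet
  split_ifs with h1 h2 h2
  · rfl
  · omega
  · omega
  · rfl

theorem sum_C (n : ℤ) (hn : n % 4 = 2) (h2 : ∀ u v : ℤ, u ^ 2 + v ^ 2 ≠ n) :
    ∑ v ∈ (Oo n).filter (fun v => 0 < v.2.2 - 2 * v.1 - v.2.1), bet (v.2.2 - 2 * v.1 - v.2.1)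
      = ((C3 n).card : ZMod 2) := by
  rw [card_C3 n hn]
  -- split into three parts
  have e1 : ∑ v ∈ (Oo n).filter (fun v => 0 < v.2.2 - 2 * v.1 - v.2.1),
        bet (v.2.2 - 2 * v.1 - v.2.1)
      = ∑ v ∈ (J n).filter (fun v => v.2.1 + 2 * v.1 < v.2.2), bet (v.2.2 - 2 * v.1 - v.2.1)
        + (∑ v ∈ (Oo n).filter (fun v => v.1 < 0 ∧ v.2.1 < v.2.2), bet (v.2.2 - 2 * v.1 - v.2.1)
        + ∑ v ∈ (Oo n).filter (fun v => v.1 < 0 ∧ v.2.2 < v.2.1 ∧ 0 < v.2.2 - 2 * v.1 - v.2.1),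
            bet (v.2.2 - 2 * v.1 - v.2.1)) := by
    rw [← sum_union, ← sum_union]
    · congr 1
      ext ⟨x, y, z⟩
      simp only [mem_union, mem_filter, mem_Oo, mem_J]
      constructor
      · rintro ⟨⟨⟨hy, hz, h⟩, hy2, hz2⟩, hx⟩
        have hp := par_O x y z (by rw [h]; exact hn) hy2 hz2
        rcases lt_or_gt_of_ne (show x ≠ 0 by omega) with h' | h'
        · rcases lt_trichotomy y z with h4 | h4 | h4
          · exact Or.inr (Or.inl ⟨⟨⟨hy, hz, h⟩, hy2, hz2⟩, h', h4⟩)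
          · exfalso
            apply h2 x y
            rw [← h, h4]; ring
          · exact Or.inr (Or.inr ⟨⟨⟨hy, hz, h⟩, hy2, hz2⟩, h', h4, hx⟩)
        · exact Or.inl ⟨⟨⟨⟨hy, hz, h⟩, hy2, hz2⟩, h', by omega⟩, by omega⟩
      · rintro (⟨⟨h, hx, hyz⟩, hc⟩ | ⟨h, hx, hyz⟩ | ⟨h, hx, hyz, hc⟩)
        · exact ⟨h, by omega⟩
        · exact ⟨h, by omega⟩
        · exact ⟨h, hc⟩
    · rw [disjoint_left]
      rintro ⟨x, y, z⟩ h3 h4
      simp only [mem_union, mem_filter, mem_J] at h3 h4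
      omega
    · rw [disjoint_filter]
      rintro ⟨x, y, z⟩ _ h4 h5
      simp only at h4 h5
      omega
  have e2 : ∑ v ∈ (Oo n).filter (fun v => v.1 < 0 ∧ v.2.1 < v.2.2), bet (v.2.2 - 2 * v.1 - v.2.1)
      = ∑ v ∈ J n, bet (v.2.2 + 2 * v.1 - v.2.1) := by
    refine sum_bij' (fun v _ => (-v.1, v.2.1, v.2.2)) (fun v _ => (-v.1, v.2.1, v.2.2))
      ?_ ?_ ?_ ?_ ?_
    · rintro ⟨x, y, z⟩ hv
      rw [mem_filter, mem_Oo] at hv
      rw [mem_J]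
      obtain ⟨⟨⟨hy, hz, h⟩, hyz⟩, hx⟩ := hv
      simp only at hx
      exact ⟨⟨⟨hy, hz, by rw [← h]; ring⟩, hyz⟩, by omega, hx.2⟩
    · rintro ⟨x, y, z⟩ hv
      rw [mem_filter, mem_Oo]
      rw [mem_J] at hv
      obtain ⟨⟨⟨hy, hz, h⟩, hyz⟩, hx⟩ := hv
      simp only
      exact ⟨⟨⟨hy, hz, by rw [← h]; ring⟩, hyz⟩, by omega, hx.2⟩
    · rintro ⟨x, y, z⟩ _; simp
    · rintro ⟨x, y, z⟩ _; simp
    · rintro ⟨x, y, z⟩ _
      simp only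
      congr 1
      ring
  have e3 : ∑ v ∈ (Oo n).filter (fun v => v.1 < 0 ∧ v.2.2 < v.2.1 ∧ 0 < v.2.2 - 2 * v.1 - v.2.1),
            bet (v.2.2 - 2 * v.1 - v.2.1)
      = ∑ v ∈ (J n).filter (fun v => ¬ v.2.1 + 2 * v.1 < v.2.2), bet (v.2.1 + 2 * v.1 - v.2.2) := by
    refine sum_bij' (fun v _ => (-v.1, v.2.2, v.2.1)) (fun v _ => (-v.1, v.2.2, v.2.1))
      ?_ ?_ ?_ ?_ ?_
    · rintro ⟨x, y, z⟩ hv
      rw [mem_filter, mem_Oo] at hv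
      rw [mem_filter, mem_J]
      obtain ⟨⟨⟨hy, hz, h⟩, hy2, hz2⟩, hx⟩ := hv
      simp only at hx ⊢
      exact ⟨⟨⟨⟨hz, hy, by rw [← h]; ring⟩, hz2, hy2⟩, by omega, hx.2.1⟩, by omega⟩
    · rintro ⟨x, y, z⟩ hv
      rw [mem_filter, mem_Oo]
      rw [mem_filter, mem_J] at hv
      obtain ⟨⟨⟨⟨hy, hz, h⟩, hy2, hz2⟩, hx⟩, hc⟩ := hv
      simp only at hc ⊢
      have hne : z ≠ y + 2 * x := by
        intro h0
        apply notsq hn (x + y)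
        rw [← h, h0]; ring
      exact ⟨⟨⟨hz, hy, by rw [← h]; ring⟩, hz2, hy2⟩, by omega, hx.2, by omega⟩
    · rintro ⟨x, y, z⟩ _; simp
    · rintro ⟨x, y, z⟩ _; simp
    · rintro ⟨x, y, z⟩ _
      simp only
      congr 1
      ring
  have e4 : ∑ v ∈ J n, bet (v.2.2 + 2 * v.1 - v.2.1)
      = ∑ v ∈ (J n).filter (fun v => v.2.1 + 2 * v.1 < v.2.2), bet (v.2.2 + 2 * v.1 - v.2.1)
        + ∑ v ∈ (J n).filter (fun v => ¬ v.2.1 + 2 * v.1 < v.2.2), bet (v.2.2 + 2 * v.1 - v.2.1) :=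
    (sum_filter_add_sum_filter_not _ _ _).symm
  have e5 : ∑ v ∈ (J n).filter (fun v => v.2.1 + 2 * v.1 < v.2.2), bet (v.2.2 - 2 * v.1 - v.2.1)
      + ∑ v ∈ (J n).filter (fun v => v.2.1 + 2 * v.1 < v.2.2), bet (v.2.2 + 2 * v.1 - v.2.1)
      = (((J n).filter fun v => v.2.1 + 2 * v.1 < v.2.2).card : ZMod 2) := by
    rw [← sum_add_distrib, card_eq_sum_ones, Nat.cast_sum]
    refine sum_congr rfl ?_
    rintro ⟨x, y, z⟩ hv
    rw [mem_filter, mem_J] at hv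
    obtain ⟨⟨⟨⟨hy, hz, h⟩, hy2, hz2⟩, hx⟩, hc⟩ := hv
    have hp := par_O x y z (by rw [h]; exact hn) hy2 hz2
    rw [Nat.cast_one]
    exact bet_add _ _ (by simp only; omega) (by simp only; omega) (by simp only; omega)
  have e6 : ∑ v ∈ (J n).filter (fun v => ¬ v.2.1 + 2 * v.1 < v.2.2), bet (v.2.2 + 2 * v.1 - v.2.1)
      + ∑ v ∈ (J n).filter (fun v => ¬ v.2.1 + 2 * v.1 < v.2.2), bet (v.2.1 + 2 * v.1 - v.2.2)
      = 0 := by
    rw [← sum_add_distrib]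
    refine sum_eq_zero ?_
    rintro ⟨x, y, z⟩ hv
    rw [mem_filter, mem_J] at hv
    obtain ⟨⟨⟨⟨hy, hz, h⟩, hy2, hz2⟩, hx⟩, hc⟩ := hv
    have hp := par_O x y z (by rw [h]; exact hn) hy2 hz2
    exact bet_add' _ _ (by simp only; omega) (by simp only; omega) (by simp only; omega)
  rw [e1, e2, e3, e4, ← e5]
  linear_combination e6

/-- the parity of `C3` -/
theorem C3_parity (n : ℤ) (hn : n % 4 = 2) (h2 : ∀ u v : ℤ, u ^ 2 + v ^ 2 ≠ n) :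
    ((C3 n).card : ZMod 2) = ∑ v ∈ (E1 n).filter (fun v => v.1 = 0), bet v.2.2 := by
  rw [← sum_C n hn h2, ← sum_B n hn, sum_A n hn]

end Pool.Agent.X13.TP
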