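import Pool.Agent.X13.TP.Three

/-!
# Parity of `ν₃(2 p r)`
-/

namespace Pool.Agent.X13.TP

open Finset

theorem sum_x0 (M : ℕ) (hM : 0 < M) :
    ∑ v ∈ (E1 (2 * (M : ℤ))).filter (fun v => v.1 = 0), bet v.2.2
      = ∑ b ∈ M.divisors, (if b % 4 = 3 then (1 : ZMod 2) else 0) := by
  refine sum_bij' (fun v _ => (v.2.2 / 2).toNat) (fun b _ => (0, ((M / b : ℕ) : ℤ), 2 * (b : ℤ)))
    ?_ ?_ ?_ ?_ ?_
  · rintro ⟨x, y, z⟩ hv
    rw [mem_filter, mem_E1] at hv
    obtain ⟨⟨⟨hy, hz, h⟩, hz2⟩, hx⟩ := hv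
    simp only at hx
    subst hx
    obtain ⟨c, rfl⟩ : ∃ c, z = 2 * c := ⟨z / 2, by omega⟩
    rw [Nat.mem_divisors]
    refine ⟨?_, hM.ne'⟩
    simp only
    have e : 2 * c / 2 = c := by omega
    rw [e]
    have hc : 0 ≤ c := by omega
    obtain ⟨c', rfl⟩ := Int.eq_ofNat_of_zero_le hc
    obtain ⟨y', rfl⟩ := Int.eq_ofNat_of_zero_le hy.le
    rw [Int.toNat_natCast]
    refine ⟨y', ?_⟩
    have : (M : ℤ) = c' * y' := by linarith
    exact_mod_cast this
  · intro b hb
    rw [Nat.mem_divisors] at hb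
    obtain ⟨⟨c, rfl⟩, hne⟩ := hb
    have hb0 : 0 < b := Nat.pos_of_ne_zero (left_ne_zero_of_mul hne)
    have hc0 : 0 < c := Nat.pos_of_ne_zero (right_ne_zero_of_mul hne)
    rw [mem_filter, mem_E1, Nat.mul_div_cancel_left _ hb0]
    refine ⟨⟨⟨by exact_mod_cast hc0, by positivity, by push_cast; ring⟩, by omega⟩, rfl⟩
  · rintro ⟨x, y, z⟩ hv
    rw [mem_filter, mem_E1] at hv
    obtain ⟨⟨⟨hy, hz, h⟩, hz2⟩, hx⟩ := hv
    simp only at hx
    subst hx
    obtain ⟨c, rfl⟩ : ∃ c, z = 2 * c := ⟨z / 2, by omega⟩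
    simp only
    have e : 2 * c / 2 = c := by omega
    rw [e]
    have hc : 0 < c := by omega
    obtain ⟨c', rfl⟩ := Int.eq_ofNat_of_zero_le hc.le
    obtain ⟨y', rfl⟩ := Int.eq_ofNat_of_zero_le hy.le
    rw [Int.toNat_natCast]
    have h1 : (M : ℤ) = c' * y' := by linarith
    have h2 : M = c' * y' := by exact_mod_cast h1
    have h3 : 0 < c' := by exact_mod_cast hc
    rw [h2, Nat.mul_div_cancel_left _ h3]
  · intro b hb
    simp only
    have e : 2 * (b : ℤ) / 2 = b := by omega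
    rw [e, Int.toNat_natCast]
  · rintro ⟨x, y, z⟩ hv
    rw [mem_filter, mem_E1] at hv
    obtain ⟨⟨⟨hy, hz, h⟩, hz2⟩, hx⟩ := hv
    simp only
    unfold bet
    congr 1
    apply propext
    omega

theorem sum_div (p r : ℕ) (hp : p.Prime) (hr0 : 0 < r) (hpr : ¬ p ∣ r) (g : ℕ → ZMod 2) :
    ∑ b ∈ (p * r).divisors, g b = ∑ b ∈ r.divisors, (g b + g (p * b)) := by
  rw [sum_add_distrib, ← sum_filter_add_sum_filter_not (p * r).divisors (fun b => ¬ p ∣ b)]
  congr 1
  · congr 1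
    ext b
    rw [mem_filter, Nat.mem_divisors, Nat.mem_divisors]
    constructor
    · rintro ⟨⟨h1, h2⟩, h3⟩
      refine ⟨?_, hr0.ne'⟩
      exact (Nat.Coprime.symm ((Nat.Prime.coprime_iff_not_dvd hp).mpr h3)).dvd_of_dvd_mul_left h1
    · rintro ⟨h1, h2⟩
      exact ⟨⟨Dvd.dvd.mul_left h1 p, (Nat.mul_pos hp.pos hr0).ne'⟩, fun h => hpr (h.trans h1)⟩
  · refine sum_bij' (fun b _ => b / p) (fun b _ => p * b) ?_ ?_ ?_ ?_ ?_
    · intro b hb
      rw [mem_filter, Nat.mem_divisors, not_not] at hb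
      obtain ⟨⟨h1, h2⟩, c, rfl⟩ := hb
      rw [Nat.mul_div_cancel_left _ hp.pos, Nat.mem_divisors]
      exact ⟨Nat.dvd_of_mul_dvd_mul_left hp.pos h1, hr0.ne'⟩
    · intro b hb
      rw [Nat.mem_divisors] at hb
      rw [mem_filter, Nat.mem_divisors, not_not]
      exact ⟨⟨Nat.mul_dvd_mul_left p hb.1, (Nat.mul_pos hp.pos hr0).ne'⟩, dvd_mul_right p b⟩
    · intro b hb
      rw [mem_filter, Nat.mem_divisors, not_not] at hb
      exact Nat.mul_div_cancel' hb.2
    · intro b hb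
      exact Nat.mul_div_cancel_left _ hp.pos
    · intro b hb
      rw [mem_filter, Nat.mem_divisors, not_not] at hb
      rw [Nat.mul_div_cancel' hb.2]

theorem C3_2pr (p r : ℕ) (hp : p.Prime) (hp4 : p % 4 = 3) (hr : r % 2 = 1) (hpr : ¬ p ∣ r) :
    ((C3 (2 * (p : ℤ) * r)).card : ZMod 2) = (r.divisors.card : ZMod 2) := by
  have hpi : Prime (p : ℤ) := Nat.prime_iff_prime_int.mp hp
  have hpri : ¬ (p : ℤ) ∣ (r : ℤ) := by
    intro h; exact hpr (by exact_mod_cast h)
  have h2 : ∀ u v : ℤ, u ^ 2 + v ^ 2 ≠ 2 * (p : ℤ) * r :=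
    not_two_squares p r hpi (by exact_mod_cast hp.pos) (by omega) hpri
  have hr0 : 0 < r := by omega
  have hmod : (2 * (p : ℤ) * r) % 4 = 2 := by
    have : ((p : ℤ) * r) % 2 = 1 := by
      rw [Int.mul_emod, show (r : ℤ) % 2 = 1 by omega, show (p : ℤ) % 2 = 1 by omega]; norm_num
    have e : 2 * (p : ℤ) * r = 2 * (p * r) := by ring
    rw [e]; omega
  rw [C3_parity _ hmod h2]
  have e : 2 * (p : ℤ) * r = 2 * ((p * r : ℕ) : ℤ) := by push_cast; ring
  rw [e, sum_x0 (p * r) (Nat.mul_pos hp.pos hr0), sum_div p r hp hr0 hpr, card_eq_sum_ones,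
    Nat.cast_sum]
  refine sum_congr rfl fun b hb => ?_
  have hb2 : b % 2 = 1 := by
    obtain ⟨c, hc⟩ := Nat.dvd_of_mem_divisors hb
    rw [hc, Nat.mul_mod] at hr
    rcases Nat.mod_two_eq_zero_or_one b with h | h
    · rw [h, zero_mul] at hr; norm_num at hr
    · exact h
  have hm : (p * b) % 4 = (3 * (b % 4)) % 4 := by rw [Nat.mul_mod, hp4]
  rw [Nat.cast_one]
  have hb4 : b % 4 = 1 ∨ b % 4 = 3 := by omega
  rcases hb4 with h | h
  · rw [h] at hm
    rw [if_neg (by omega), if_pos (by omega), zero_add]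
  · rw [h] at hm
    rw [if_pos (by omega), if_neg (by omega), add_zero]

/-- the six parameters of a partition with three part sizes -/
def T3 (n : ℕ) : Finset ((ℕ × ℕ × ℕ) × (ℕ × ℕ × ℕ)) :=
  (((Icc 1 n) ×ˢ (Icc 1 n) ×ˢ (Icc 1 n)) ×ˢ ((Icc 1 n) ×ˢ (Icc 1 n) ×ˢ (Icc 1 n))).filter
    fun t => t.1.1 * (t.2.1 + t.2.2.1 + t.2.2.2) + t.1.2.1 * (t.2.1 + t.2.2.1)
      + t.1.2.2 * t.2.1 = n

theorem mem_T3 {n a b c x y z : ℕ} : ((a, b, c), (x, y, z)) ∈ T3 n ↔
    (0 < a ∧ 0 < b ∧ 0 < c) ∧ (0 < x ∧ 0 < y ∧ 0 < z) ∧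
      a * (x + y + z) + b * (x + y) + c * x = n := by
  unfold T3
  simp only [mem_filter, mem_product, mem_Icc]
  constructor
  · rintro ⟨⟨⟨⟨h1, -⟩, ⟨h2, -⟩, ⟨h3, -⟩⟩, ⟨⟨h4, -⟩, ⟨h5, -⟩, ⟨h6, -⟩⟩⟩, h⟩
    exact ⟨⟨h1, h2, h3⟩, ⟨h4, h5, h6⟩, h⟩
  · rintro ⟨⟨h1, h2, h3⟩, ⟨h4, h5, h6⟩, h⟩
    have k1 : a * (x + y + z) ≤ n := by rw [← h]; nlinarith
    have k2 : a * 1 ≤ a * (x + y + z) := Nat.mul_le_mul_left _ (by omega)
    have k3 : 1 * (x + y + z) ≤ a * (x + y + z) := Nat.mul_le_mul_right _ h1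
    have k4 : b * 1 ≤ b * (x + y) := Nat.mul_le_mul_left _ (by omega)
    have k5 : c * 1 ≤ c * x := Nat.mul_le_mul_left _ (by omega)
    refine ⟨⟨⟨⟨h1, by omega⟩, ⟨h2, by omega⟩, ⟨h3, by omega⟩⟩, ⟨⟨h4, by omega⟩, ⟨h5, by omega⟩,
      ⟨h6, by omega⟩⟩⟩, h⟩

/-- the partition with three part sizes -/
def mk3 (n a b c x y z : ℕ) (hx : 0 < x) (h : a * (x + y + z) + b * (x + y) + c * x = n) :
    Nat.Partition n where
  parts := Multiset.replicate a (x + y + z) + Multiset.replicate b (x + y) + Multiset.replicate c x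
  parts_pos := by
    intro i hi
    rw [Multiset.mem_add, Multiset.mem_add, Multiset.mem_replicate, Multiset.mem_replicate,
      Multiset.mem_replicate] at hi
    rcases hi with (⟨-, rfl⟩ | ⟨-, rfl⟩) | ⟨-, rfl⟩ <;> omega
  parts_sum := by
    rw [Multiset.sum_add, Multiset.sum_add, Multiset.sum_replicate, Multiset.sum_replicate,
      Multiset.sum_replicate, smul_eq_mul, smul_eq_mul, smul_eq_mul, h]

theorem sorted_three (S : Finset ℕ) (h : S.card = 3) :
    ∃ x y z, x < y ∧ y < z ∧ S = {x, y, z} := by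
  obtain ⟨a, b, c, hab, hac, hbc, rfl⟩ := card_eq_three.mp h
  rcases lt_or_gt_of_ne hab with h1 | h1 <;> rcases lt_or_gt_of_ne hac with h2 | h2 <;>
    rcases lt_or_gt_of_ne hbc with h3 | h3
  · exact ⟨a, b, c, h1, h3, rfl⟩
  · exact ⟨a, c, b, h2, h3, by ext t; simp only [mem_insert, mem_singleton]; tauto⟩
  · omega
  · exact ⟨c, a, b, h2, h1, by ext t; simp only [mem_insert, mem_singleton]; tauto⟩
  · exact ⟨b, a, c, h1, h2, by ext t; simp only [mem_insert, mem_singleton]; tauto⟩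
  · omega
  · exact ⟨b, c, a, h3, h2, by ext t; simp only [mem_insert, mem_singleton]; tauto⟩
  · exact ⟨c, b, a, h3, h1, by ext t; simp only [mem_insert, mem_singleton]; tauto⟩

theorem nu_three (n : ℕ) : nu 3 n = (T3 n).card := by
  unfold nu
  symm
  refine card_bij (fun t ht => mk3 n t.1.1 t.1.2.1 t.1.2.2 t.2.1 t.2.2.1 t.2.2.2 ?_ ?_) ?_ ?_ ?_
  · obtain ⟨⟨a, b, c⟩, ⟨x, y, z⟩⟩ := t
    rw [mem_T3] at ht
    exact ht.2.1.1
  · obtain ⟨⟨a, b, c⟩, ⟨x, y, z⟩⟩ := t
    rw [mem_T3] at ht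
    exact ht.2.2
  · rintro ⟨⟨a, b, c⟩, ⟨x, y, z⟩⟩ ht
    rw [mem_T3] at ht
    obtain ⟨⟨ha, hb, hc⟩, ⟨hx, hy, hz⟩, h⟩ := ht
    rw [mem_filter]
    refine ⟨mem_univ _, ?_⟩
    show (Multiset.replicate a (x + y + z) + Multiset.replicate b (x + y)
      + Multiset.replicate c x).toFinset.card = 3
    rw [Multiset.toFinset_add, Multiset.toFinset_add, Multiset.toFinset_replicate,
      Multiset.toFinset_replicate, Multiset.toFinset_replicate,
      if_neg (by omega), if_neg (by omega), if_neg (by omega)]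
    have : ({x + y + z} ∪ {x + y} ∪ {x} : Finset ℕ) = {x + y + z, x + y, x} := by
      ext t; simp only [mem_union, mem_insert, mem_singleton]; tauto
    rw [this, card_eq_three]
    exact ⟨_, _, _, by omega, by omega, by omega, rfl⟩
  · rintro ⟨⟨a, b, c⟩, ⟨x, y, z⟩⟩ ht ⟨⟨a', b', c'⟩, ⟨x', y', z'⟩⟩ ht' he
    rw [mem_T3] at ht ht'
    obtain ⟨⟨ha, hb, hc⟩, ⟨hx, hy, hz⟩, h⟩ := ht
    obtain ⟨⟨ha', hb', hc'⟩, ⟨hx', hy', hz'⟩, h'⟩ := ht'
    have he2 : Multiset.replicate a (x + y + z) + Multiset.replicate b (x + y)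
        + Multiset.replicate c x
        = Multiset.replicate a' (x' + y' + z') + Multiset.replicate b' (x' + y')
        + Multiset.replicate c' x' := congrArg Nat.Partition.parts he
    have hcnt : ∀ t, (if x + y + z = t then a else 0) + (if x + y = t then b else 0)
          + (if x = t then c else 0)
        = (if x' + y' + z' = t then a' else 0) + (if x' + y' = t then b' else 0)
          + (if x' = t then c' else 0) := by
      intro t
      have := congrArg (Multiset.count t) he2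
      rw [Multiset.count_add, Multiset.count_add, Multiset.count_add, Multiset.count_add,
        Multiset.count_replicate, Multiset.count_replicate, Multiset.count_replicate,
        Multiset.count_replicate, Multiset.count_replicate, Multiset.count_replicate] at this
      exact this
    have hmem : ∀ t, (t = x + y + z ∨ t = x + y ∨ t = x) ↔
        (t = x' + y' + z' ∨ t = x' + y' ∨ t = x') := by
      intro t
      have h1 : t ∈ Multiset.replicate a (x + y + z) + Multiset.replicate b (x + y)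
        + Multiset.replicate c x ↔ (t = x + y + z ∨ t = x + y ∨ t = x) := by
        rw [Multiset.mem_add, Multiset.mem_add, Multiset.mem_replicate, Multiset.mem_replicate,
          Multiset.mem_replicate]
        constructor
        · rintro ((⟨-, h⟩ | ⟨-, h⟩) | ⟨-, h⟩)
          · exact Or.inl h
          · exact Or.inr (Or.inl h)
          · exact Or.inr (Or.inr h)
        · rintro (h | h | h)
          · exact Or.inl (Or.inl ⟨ha.ne', h⟩)
          · exact Or.inl (Or.inr ⟨hb.ne', h⟩)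
          · exact Or.inr ⟨hc.ne', h⟩
      have h2 : t ∈ Multiset.replicate a' (x' + y' + z') + Multiset.replicate b' (x' + y')
        + Multiset.replicate c' x' ↔ (t = x' + y' + z' ∨ t = x' + y' ∨ t = x') := by
        rw [Multiset.mem_add, Multiset.mem_add, Multiset.mem_replicate, Multiset.mem_replicate,
          Multiset.mem_replicate]
        constructor
        · rintro ((⟨-, h⟩ | ⟨-, h⟩) | ⟨-, h⟩)
          · exact Or.inl h
          · exact Or.inr (Or.inl h)
          · exact Or.inr (Or.inr h)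
        · rintro (h | h | h)
          · exact Or.inl (Or.inl ⟨ha'.ne', h⟩)
          · exact Or.inl (Or.inr ⟨hb'.ne', h⟩)
          · exact Or.inr ⟨hc'.ne', h⟩
      rw [← h1, he2, h2]
    have m1 := (hmem (x + y + z)).mp (Or.inl rfl)
    have m1' := (hmem (x' + y' + z')).mpr (Or.inl rfl)
    have m3 := (hmem x).mp (Or.inr (Or.inr rfl))
    have m3' := (hmem x').mpr (Or.inr (Or.inr rfl))
    have m2 := (hmem (x + y)).mp (Or.inr (Or.inl rfl))
    have k1 : x + y + z = x' + y' + z' := by omega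
    have k3 : x = x' := by clear m1 m1'; omega
    have k2 : x + y = x' + y' := by clear m1 m1' m3 m3'; omega
    have e1 : x = x' ∧ x + y = x' + y' ∧ x + y + z = x' + y' + z' := ⟨k3, k2, k1⟩
    clear m1 m1' m2 m3 m3' hmem k1 k2 k3
    obtain ⟨e1, e2, e3⟩ := e1
    obtain rfl := e1
    obtain rfl : y = y' := by omega
    obtain rfl : z = z' := by omega
    have q1 : ¬ (x + y = x + y + z) := by omega
    have q2 : ¬ (x = x + y + z) := by omega
    have q3 : ¬ (x + y + z = x + y) := by omega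
    have q4 : ¬ (x = x + y) := by omega
    have q5 : ¬ (x + y + z = x) := by omega
    have q6 : ¬ (x + y = x) := by omega
    have c1 := hcnt (x + y + z)
    have c2 := hcnt (x + y)
    have c3 := hcnt x
    simp only [if_true, if_neg q1, if_neg q2, add_zero] at c1
    simp only [if_true, if_neg q3, if_neg q4, add_zero, zero_add] at c2
    simp only [if_true, if_neg q5, if_neg q6, add_zero, zero_add] at c3
    subst c1 c2 c3
    rfl
  · intro p hp
    rw [mem_filter] at hp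
    obtain ⟨x, y, z, hxy, hyz, hS⟩ := sorted_three _ hp.2
    have hm : ∀ t, t ∈ p.parts ↔ t = x ∨ t = y ∨ t = z := by
      intro t
      rw [← Multiset.mem_toFinset, hS]
      simp
    have hx0 : 0 < x := p.parts_pos ((hm x).mpr (Or.inl rfl))
    have ca : 0 < p.parts.count z := Multiset.count_pos.mpr ((hm z).mpr (by tauto))
    have cb : 0 < p.parts.count y := Multiset.count_pos.mpr ((hm y).mpr (by tauto))
    have cc : 0 < p.parts.count x := Multiset.count_pos.mpr ((hm x).mpr (by tauto))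
    have ey : x + (y - x) = y := by omega
    have ez : x + (y - x) + (z - y) = z := by omega
    have hparts : p.parts = Multiset.replicate (p.parts.count z) (x + (y - x) + (z - y))
        + Multiset.replicate (p.parts.count y) (x + (y - x))
        + Multiset.replicate (p.parts.count x) x := by
      rw [ey, show y + (z - y) = z by omega]
      ext t
      rw [Multiset.count_add, Multiset.count_add, Multiset.count_replicate,
        Multiset.count_replicate, Multiset.count_replicate]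
      by_cases h1 : t ∈ p.parts
      · rcases (hm t).mp h1 with rfl | rfl | rfl
        · rw [if_neg (by omega), if_neg (by omega), if_pos rfl]; ring
        · rw [if_neg (by omega), if_pos rfl, if_neg (by omega)]; ring
        · rw [if_pos rfl, if_neg (by omega), if_neg (by omega)]; ring
      · rw [Multiset.count_eq_zero.mpr h1]
        rw [hm] at h1
        push Not at h1
        rw [if_neg (Ne.symm h1.2.2), if_neg (Ne.symm h1.2.1), if_neg (Ne.symm h1.1)]
    have hsum : (p.parts.count z) * (x + (y - x) + (z - y)) + (p.parts.count y) * (x + (y - x))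
        + (p.parts.count x) * x = n := by
      have h1 := p.parts_sum
      have h2 := congrArg Multiset.sum hparts
      rw [h1, Multiset.sum_add, Multiset.sum_add, Multiset.sum_replicate,
        Multiset.sum_replicate, Multiset.sum_replicate, smul_eq_mul,
        smul_eq_mul, smul_eq_mul] at h2
      exact h2.symm
    refine ⟨((p.parts.count z, p.parts.count y, p.parts.count x), (x, y - x, z - y)), ?_, ?_⟩
    · rw [mem_T3]
      exact ⟨⟨ca, cb, cc⟩, ⟨hx0, by omega, by omega⟩, hsum⟩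
    · apply Nat.Partition.ext
      exact hparts.symm

theorem nu_three_parity (n : ℕ) (hn : n % 4 = 2) : (nu 3 n : ZMod 2) = ((C3 (n : ℤ)).card : ZMod 2) := by
  rw [nu_three]
  have h1 : ((T3 n).card : ZMod 2) = (((T3 n).filter fun t => t.1 = t.2).card : ZMod 2) := by
    rw [card_eq_sum_ones, card_eq_sum_ones, Nat.cast_sum, Nat.cast_sum,
      ← sum_filter_add_sum_filter_not (T3 n) (fun t => t.1 = t.2)]
    have : ∑ x ∈ (T3 n).filter (fun t => ¬ t.1 = t.2), ((1 : ℕ) : ZMod 2) = 0 := by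
      refine sum_involution (fun t _ => (t.2, t.1)) ?_ ?_ ?_ ?_
      · intro t _; exact CharTwo.add_self_eq_zero _
      · rintro ⟨s, t⟩ hv _ he
        rw [mem_filter] at hv
        exact hv.2 (Prod.mk.inj he).1.symm
      · rintro ⟨⟨a, b, c⟩, ⟨x, y, z⟩⟩ hv
        rw [mem_filter, mem_T3] at hv ⊢
        obtain ⟨⟨h1, h2, h3⟩, h4⟩ := hv
        exact ⟨⟨h2, h1, by rw [← h3]; ring⟩, fun h => h4 h.symm⟩
      · rintro ⟨s, t⟩ _; rfl
    rw [this, add_zero]
  rw [h1]
  congr 1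
  refine card_bij' (fun t _ => (((t.1.1 + t.1.2.1 : ℕ) : ℤ), (t.1.1 : ℤ), 2 * (t.1.2.2 : ℤ)))
    (fun v _ => ((v.2.1.toNat, (v.1 - v.2.1).toNat, (v.2.2 / 2).toNat),
      (v.2.1.toNat, (v.1 - v.2.1).toNat, (v.2.2 / 2).toNat))) ?_ ?_ ?_ ?_
  · rintro ⟨⟨a, b, c⟩, ⟨x, y, z⟩⟩ ht
    rw [mem_filter, mem_T3] at ht
    obtain ⟨⟨⟨ha, hb, hc⟩, -, h⟩, he⟩ := ht
    simp only [Prod.mk.injEq] at he
    obtain ⟨rfl, rfl, rfl⟩ := he
    unfold C3
    rw [mem_filter, mem_E1]
    refine ⟨⟨⟨by exact_mod_cast ha, by positivity, ?_⟩, by omega⟩, by push_cast; omega⟩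
    rw [← h]; push_cast; ring
  · rintro ⟨x, y, z⟩ hv
    unfold C3 at hv
    rw [mem_filter, mem_E1] at hv
    obtain ⟨⟨⟨hy, hz, h⟩, hz2⟩, hx⟩ := hv
    simp only at hx
    obtain ⟨c, rfl⟩ : ∃ c, z = 2 * c := ⟨z / 2, by omega⟩
    have e : 2 * c / 2 = c := by omega
    obtain ⟨c', rfl⟩ := Int.eq_ofNat_of_zero_le (show 0 ≤ c by omega)
    obtain ⟨y', rfl⟩ := Int.eq_ofNat_of_zero_le hy.le
    obtain ⟨d', hd⟩ := Int.eq_ofNat_of_zero_le (show 0 ≤ x - y' by omega)
    have hx' : x = y' + d' := by omega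
    subst hx'
    rw [mem_filter]
    simp only [e, hd, Int.toNat_natCast]
    rw [mem_T3]
    refine ⟨⟨⟨by exact_mod_cast hy, by omega, by omega⟩, ⟨by exact_mod_cast hy, by omega, by omega⟩,
      ?_⟩, trivial⟩
    have : ((y' * (y' + d' + c') + d' * (y' + d') + c' * y' : ℕ) : ℤ) = (n : ℤ) := by
      rw [← h]; push_cast; ring
    exact_mod_cast this
  · rintro ⟨⟨a, b, c⟩, ⟨x, y, z⟩⟩ ht
    rw [mem_filter, mem_T3] at ht
    obtain ⟨⟨⟨ha, hb, hc⟩, -, h⟩, he⟩ := ht
    simp only [Prod.mk.injEq] at he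
    obtain ⟨rfl, rfl, rfl⟩ := he
    have e1 : 2 * (c : ℤ) / 2 = c := by omega
    have e2 : ((a + b : ℕ) : ℤ) - (a : ℤ) = b := by push_cast; ring
    simp only [e1, e2, Int.toNat_natCast]
  · rintro ⟨x, y, z⟩ hv
    unfold C3 at hv
    rw [mem_filter, mem_E1] at hv
    obtain ⟨⟨⟨hy, hz, h⟩, hz2⟩, hx⟩ := hv
    simp only at hx
    simp only [Prod.mk.injEq]
    omega

/-- **`ν₃(2 p r) ≡ d(r) (mod 2)`** for `p ≡ 3 (mod 4)` prime, `r` odd, `p ∤ r`. -/
theorem nu3_parity (p r : ℕ) (hp : p.Prime) (hp4 : p % 4 = 3) (hr : r % 2 = 1) (hpr : ¬ p ∣ r) :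
    nu 3 (2 * p * r) % 2 = r.divisors.card % 2 := by
  have hmod : (2 * p * r) % 4 = 2 := by
    have : (p * r) % 2 = 1 := by
      rw [Nat.mul_mod, hr, show p % 2 = 1 by omega]
    have e : 2 * p * r = 2 * (p * r) := by ring
    rw [e]; omega
  have h := nu_three_parity _ hmod
  have h2 := C3_2pr p r hp hp4 hr hpr
  have e : ((2 * p * r : ℕ) : ℤ) = 2 * (p : ℤ) * r := by push_cast; ring
  rw [e, h2] at h
  exact (ZMod.natCast_eq_natCast_iff _ _ _).mp h

end Pool.Agent.X13.TP
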